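import Pool.Agent.W880.CP.NE

/-! CP-CHAIN: ordered visits lemma (MP_2b201f_pr). -/

set_option autoImplicit false
set_option linter.unusedSectionVars false

namespace Pool.Agent.W880.CP

open MeasureTheory ProbabilityTheory Pool.Agent.W845.CP Set Filter
open scoped ENNReal

section

variable {X : Type} [MeasurableSpace X] [Countable X] [DiscreteMeasurableSpace X]

/-- one step formula for functionals of the history -/
theorem towerH (J : X → Measure X) (hJ : GoodJ J) (x0 : X) (n : ℕ)
    (G : (ℕ → X × ℝ) → X × ℝ → ℝ≥0∞) (hG : Measurable (Function.uncurry G))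
    (hdep : ∀ ω ω' z, (∀ j, j ≤ n → ω j = ω' j) → G ω z = G ω' z) :
    ∫⁻ ω, G ω (ω (n + 1)) ∂(law J hJ x0) =
      ∫⁻ ω, (J (ω n).1 univ)⁻¹ * ∫⁻ y, ∫⁻ s, G ω (y, (ω n).2 + s)
        ∂(expMeasure (J (ω n).1 univ).toReal) ∂(J (ω n).1) ∂(law J hJ x0) := by
  classical
  set ext : (Π _ : Finset.Iic n, X × ℝ) → (ℕ → X × ℝ) := fun h j =>
    if hj : j ∈ Finset.Iic n then h ⟨j, hj⟩ else (x0, 0) with hext
  have hextm : Measurable ext := by
    refine measurable_pi_iff.2 fun j => ?_
    by_cases hj : j ∈ Finset.Iic n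
    · simp only [hext, hj, dite_true]
      exact measurable_pi_apply _
    · simp only [hext, hj, dite_false]
      exact measurable_const
  have hexte : ∀ ω : ℕ → X × ℝ, ∀ j, j ≤ n →
      ext (Preorder.frestrictLe (π := fun _ => X × ℝ) n ω) j = ω j := by
    intro ω j hj
    have hj' : j ∈ Finset.Iic n := Finset.mem_Iic.2 hj
    simp only [hext, hj', dite_true]
    rfl
  have h := tower J hJ x0 n (fun h z => G (ext h) z) (by
    have : (Function.uncurry fun (h : Π _ : Finset.Iic n, X × ℝ) z => G (ext h) z) =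
      (Function.uncurry G) ∘ (fun p : (Π _ : Finset.Iic n, X × ℝ) × (X × ℝ) =>
        (ext p.1, p.2)) := rfl
    rw [this]
    exact hG.comp ((hextm.comp measurable_fst).prodMk measurable_snd))
  have e1 : ∀ ω z, G (ext (Preorder.frestrictLe (π := fun _ => X × ℝ) n ω)) z = G ω z :=
    fun ω z => hdep _ _ z (hexte ω)
  simp_rw [e1] at h
  rw [h]
  refine lintegral_congr fun ω => ?_
  have h2 : Measurable (G ω) := by
    have : G ω = (Function.uncurry G) ∘ (fun z => (ω, z)) := rfl
    rw [this]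
    exact hG.comp (by fun_prop)
  exact lintegral_stepM J hJ (ω n) (G ω) h2

theorem inner_exp (J : X → Measure X) (hJ : GoodJ J) (D : ℝ) (hD : 0 ≤ D) (x : X) (t : ℝ)
    (F : X → ℝ≥0∞) :
    (J x univ)⁻¹ * ∫⁻ y, ∫⁻ s, F y * ENNReal.ofReal (Real.exp (-(D * (t + s))))
        ∂(expMeasure (J x univ).toReal) ∂(J x) =
      ENNReal.ofReal (Real.exp (-(D * t))) *
        ((J x univ + ENNReal.ofReal D)⁻¹ * ∫⁻ y, F y ∂(J x)) := by
  have hq := hJ x
  have hr : 0 < (J x univ).toReal := ENNReal.toReal_pos hq.1 hq.2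
  have hrq : ENNReal.ofReal (J x univ).toReal = J x univ := ENNReal.ofReal_toReal hq.2
  have e1 : ∀ y, ∫⁻ s, F y * ENNReal.ofReal (Real.exp (-(D * (t + s))))
      ∂(expMeasure (J x univ).toReal) =
      F y * (ENNReal.ofReal (Real.exp (-(D * t))) *
        (J x univ * (J x univ + ENNReal.ofReal D)⁻¹)) := by
    intro y
    have e2 : ∀ s : ℝ, ENNReal.ofReal (Real.exp (-(D * (t + s)))) =
        ENNReal.ofReal (Real.exp (-(D * t))) * ENNReal.ofReal (Real.exp (-(D * s))) := by
      intro s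
      rw [← ENNReal.ofReal_mul (Real.exp_nonneg _), ← Real.exp_add]
      congr 2
      ring
    simp_rw [e2]
    rw [lintegral_const_mul _ (by fun_prop), lintegral_const_mul _ (by fun_prop),
      lint_exp_laplace _ D hr hD, ENNReal.ofReal_div_of_pos (by linarith),
      ENNReal.ofReal_add hr.le hD, hrq, div_eq_mul_inv]
  simp_rw [e1]
  rw [lintegral_mul_const _ (measurable_of_countable _)]
  have e3 : (J x univ)⁻¹ * ((∫⁻ y, F y ∂(J x)) *
      (ENNReal.ofReal (Real.exp (-(D * t))) *
        (J x univ * (J x univ + ENNReal.ofReal D)⁻¹))) =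
      ((J x univ)⁻¹ * J x univ) * (ENNReal.ofReal (Real.exp (-(D * t))) *
        ((J x univ + ENNReal.ofReal D)⁻¹ * ∫⁻ y, F y ∂(J x))) := by
    ring
  rw [e3, ENNReal.inv_mul_cancel hq.1 hq.2, one_mul]

end

section idx

variable {X : Type} (S : ℕ → Set X) (r : ℕ)

theorem adv_ex (i : ℕ) (y : X) : ∃ j, i ≤ j ∧ ¬ (j < r ∧ y ∈ S (j + 1)) :=
  ⟨max i r, le_max_left _ _, fun h => absurd h.1 (not_lt.2 (le_max_right _ _))⟩

open Classical in
/-- advance the index as long as possible -/
noncomputable def adv (i : ℕ) (y : X) : ℕ := Nat.find (adv_ex S r i y)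

theorem adv_ge (i : ℕ) (y : X) : i ≤ adv S r i y := by
  classical
  exact (Nat.find_spec (adv_ex S r i y)).1

theorem adv_not (i : ℕ) (y : X) (h : adv S r i y < r) : y ∉ S (adv S r i y + 1) := by
  classical
  exact fun h2 => (Nat.find_spec (adv_ex S r i y)).2 ⟨h, h2⟩

theorem adv_mem (i : ℕ) (y : X) (j : ℕ) (h1 : i ≤ j) (h2 : j < adv S r i y) :
    j < r ∧ y ∈ S (j + 1) := by
  classical
  have := Nat.find_min (adv_ex S r i y) h2
  by_contra h3
  exact this ⟨h1, h3⟩

/-- index of the current target -/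
noncomputable def idx : ℕ → (ℕ → X × ℝ) → ℕ
  | 0, ω => adv S r 0 (ω 0).1
  | k + 1, ω => adv S r (idx k ω) (ω (k + 1)).1

theorem idx_congr (k : ℕ) (ω ω' : ℕ → X × ℝ) (h : ∀ j, j ≤ k → ω j = ω' j) :
    idx S r k ω = idx S r k ω' := by
  induction k with
  | zero =>
    unfold idx
    rw [h 0 le_rfl]
  | succ k ih =>
    unfold idx
    rw [ih fun j hj => h j (by omega), h (k + 1) le_rfl]

theorem idx_meas [MeasurableSpace X] [Countable X] [DiscreteMeasurableSpace X] (k : ℕ) :
    Measurable (idx S r k) := by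
  have hadv : Measurable fun p : ℕ × X => adv S r p.1 p.2 := measurable_of_countable _
  induction k with
  | zero =>
    have : idx S r 0 = (fun p : ℕ × X => adv S r p.1 p.2) ∘ fun ω : ℕ → X × ℝ => (0, (ω 0).1) := by
      funext ω
      rfl
    rw [this]
    exact hadv.comp (by fun_prop)
  | succ k ih =>
    have : idx S r (k + 1) = (fun p : ℕ × X => adv S r p.1 p.2) ∘
        fun ω : ℕ → X × ℝ => (idx S r k ω, (ω (k + 1)).1) := by
      funext ω
      rfl
    rw [this]
    exact hadv.comp (by fun_prop)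

theorem idx_kappa (ω : ℕ → X × ℝ) (h0 : (ω 0).1 ∈ S 0) (k : ℕ) :
    ∃ κ : ℕ → ℕ, (∀ i, i < idx S r k ω → κ i ≤ κ (i + 1)) ∧
      (∀ i, i ≤ idx S r k ω → κ i ≤ k ∧ (ω (κ i)).1 ∈ S i) := by
  induction k with
  | zero =>
    refine ⟨fun _ => 0, fun i _ => le_rfl, ?_⟩
    intro i hi
    refine ⟨le_rfl, ?_⟩
    rcases i with _ | j
    · exact h0
    · exact (adv_mem S r 0 (ω 0).1 j (Nat.zero_le _) hi).2
  | succ k ih =>
    obtain ⟨κ, h1, h2⟩ := ih
    refine ⟨fun i => if i ≤ idx S r k ω then κ i else k + 1, ?_, ?_⟩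
    · intro i hi
      dsimp only
      by_cases h3 : i + 1 ≤ idx S r k ω
      · rw [if_pos (by omega), if_pos h3]
        exact h1 i (by omega)
      · rw [if_neg h3]
        by_cases h4 : i ≤ idx S r k ω
        · rw [if_pos h4]
          have := (h2 i h4).1
          omega
        · rw [if_neg h4]
    · intro i hi
      dsimp only
      by_cases h4 : i ≤ idx S r k ω
      · rw [if_pos h4]
        have := h2 i h4
        exact ⟨by omega, this.2⟩
      · rw [if_neg h4]
        refine ⟨le_rfl, ?_⟩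
        rcases i with _ | j
        · exact absurd (Nat.zero_le _) h4
        · exact (adv_mem S r (idx S r k ω) (ω (k + 1)).1 j (by omega) hi).2

end idx

theorem chain : St_CHAIN := by
  intro X _ _ _ J hJ x0 r S c δ hδ hc hT hx0 hu
  classical
  set P := law J hJ x0 with hP
  set d : ℝ≥0∞ := ENNReal.ofReal δ with hd
  have hd0 : d ≠ 0 := by
    rw [hd, ne_eq, ENNReal.ofReal_eq_zero, not_le]
    exact hδ
  -- the functions U
  set U : ℕ → X → ℝ≥0∞ := fun i x => ⨆ u : {u : X → ℝ≥0∞ // (∀ y, u y ≤ 1) ∧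
    ∀ y, y ∉ S (i + 1) → (J y univ + d) * u y ≤ ∫⁻ z, u z ∂(J y)}, u.1 x with hU
  have hU1 : ∀ i x, U i x ≤ 1 := fun i x => iSup_le fun u => u.2.1 x
  have hUs : ∀ i y, y ∉ S (i + 1) → (J y univ + d) * U i y ≤ ∫⁻ z, U i z ∂(J y) := by
    intro i y hy
    simp only [hU]
    rw [ENNReal.mul_iSup]
    refine iSup_le fun u => (u.2.2 y hy).trans ?_
    refine lintegral_mono fun z => ?_
    exact le_iSup (fun u : {u : X → ℝ≥0∞ // (∀ y, u y ≤ 1) ∧
      ∀ y, y ∉ S (i + 1) → (J y univ + d) * u y ≤ ∫⁻ z, u z ∂(J y)} => u.1 z) u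
  have hUc : ∀ i, i < r → ∀ x ∈ S i, c i ≤ U i x := by
    intro i hi x hx
    obtain ⟨u, h1, h2, h3⟩ := hu i hi x hx
    exact h3.trans (le_iSup (fun u : {u : X → ℝ≥0∞ // (∀ y, u y ≤ 1) ∧
      ∀ y, y ∉ S (i + 1) → (J y univ + d) * u y ≤ ∫⁻ z, u z ∂(J y)} => u.1 x) ⟨u, h1, h2⟩)
  -- the functions Ψ
  set Ψ : ℕ → X → ℝ≥0∞ := fun i x =>
    if i < r then U i x * ∏ j ∈ Finset.Ico (i + 1) r, c j else 1 with hΨ
  have hprod1 : ∀ s : Finset ℕ, ∏ j ∈ s, c j ≤ 1 := fun s => Finset.prod_le_one' fun j _ => hc j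
  have hΨ1 : ∀ i x, Ψ i x ≤ 1 := by
    intro i x
    simp only [hΨ]
    split_ifs with h
    · exact mul_le_one' (hU1 i x) (hprod1 _)
    · exact le_rfl
  have hΨstep : ∀ i x, i < r → x ∈ S (i + 1) → Ψ i x ≤ Ψ (i + 1) x := by
    intro i x hi hx
    by_cases h : i + 1 < r
    · simp only [hΨ, hi, h, if_true]
      have h1 : ∏ j ∈ Finset.Ico (i + 1) r, c j = c (i + 1) * ∏ j ∈ Finset.Ico (i + 1 + 1) r, c j :=
        Finset.prod_eq_prod_Ico_succ_bot h c
      rw [h1]
      calc U i x * (c (i + 1) * ∏ j ∈ Finset.Ico (i + 1 + 1) r, c j)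
          ≤ 1 * (U (i + 1) x * ∏ j ∈ Finset.Ico (i + 1 + 1) r, c j) := by
            gcongr
            · exact hU1 i x
            · exact hUc (i + 1) h x hx
        _ = _ := one_mul _
    · have : Ψ (i + 1) x = 1 := by
        simp only [hΨ, h, if_false]
      rw [this]
      exact hΨ1 i x
  have hΨadv : ∀ i y, Ψ i y ≤ Ψ (adv S r i y) y := by
    intro i y
    have h1 : ∀ j, i ≤ j → j ≤ adv S r i y → Ψ i y ≤ Ψ j y := by
      intro j hij
      induction j, hij using Nat.le_induction with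
      | base => exact fun _ => le_rfl
      | succ j hij ih =>
        intro h2
        have h3 := adv_mem S r i y j hij (by omega)
        exact (ih (by omega)).trans (hΨstep j y h3.1 h3.2)
    exact h1 _ (adv_ge S r i y) le_rfl
  have hΨm : Measurable fun p : ℕ × X => Ψ p.1 p.2 := measurable_of_countable _
  -- the value
  set w : ℝ → ℝ≥0∞ := fun t => ENNReal.ofReal (Real.exp (-(δ * t))) with hw
  have hwm : Measurable w := by
    simp only [hw]
    fun_prop
  have hw1 : ∀ t, 0 ≤ t → w t ≤ 1 := by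
    intro t ht
    simp only [hw]
    rw [← ENNReal.ofReal_one]
    apply ENNReal.ofReal_le_ofReal
    rw [Real.exp_le_one_iff]
    have : 0 ≤ δ * t := by positivity
    linarith
  set Φ : ℕ → X × ℝ → ℝ≥0∞ := fun i z => if i < r then w z.2 * Ψ i z.1 else 1 with hΦ
  have hΦm : Measurable fun p : ℕ × (X × ℝ) => Φ p.1 p.2 := by
    simp only [hΦ]
    apply Measurable.ite
    · have : Measurable fun p : ℕ × (X × ℝ) => p.1 := measurable_fst
      exact this (MeasurableSet.of_discrete (s := {i : ℕ | i < r}))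
    · exact (hwm.comp (by fun_prop)).mul
        (hΨm.comp (f := fun p : ℕ × (X × ℝ) => (p.1, p.2.1)) (by fun_prop))
    · exact measurable_const
  set a : ℕ → ℝ≥0∞ := fun k => ∫⁻ ω, Φ (idx S r k ω) (ω k) ∂P with ha
  have hstp := step X J hJ x0 (fun _ _ => True)
    (fun x => Filter.Eventually.of_forall fun _ => trivial)
  have hTpos : ∀ᵐ ω ∂P, ∀ k, 0 ≤ (ω k).2 := by
    filter_upwards [hstp] with ω h k
    have hmono : Monotone fun k => (ω k).2 := monotone_nat_of_le_succ fun k => (h.2 k).2.le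
    have h1 := hmono (Nat.zero_le k)
    simp only at h1
    rw [h.1] at h1
    exact h1
  have hmono : ∀ k, a k ≤ a (k + 1) := by
    intro k
    have h1 := towerH J hJ x0 k (fun ω z => Φ (adv S r (idx S r k ω) z.1) z) (by
      have e : (Function.uncurry fun (ω : ℕ → X × ℝ) z => Φ (adv S r (idx S r k ω) z.1) z) =
          (fun p : ℕ × (X × ℝ) => Φ p.1 p.2) ∘ (fun p : (ℕ → X × ℝ) × (X × ℝ) =>
            ((fun q : ℕ × X => adv S r q.1 q.2) (idx S r k p.1, p.2.1), p.2)) := rfl
      rw [e]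
      have hadv : Measurable fun p : ℕ × X => adv S r p.1 p.2 := measurable_of_countable _
      have hi := idx_meas S r k
      exact hΦm.comp ((hadv.comp (by fun_prop)).prodMk measurable_snd))
      (by
        intro ω ω' z h
        rw [idx_congr S r k ω ω' h])
    have h2 : a (k + 1) = ∫⁻ ω, (J (ω k).1 univ)⁻¹ * ∫⁻ y, ∫⁻ s,
        Φ (adv S r (idx S r k ω) y) (y, (ω k).2 + s)
        ∂(expMeasure (J (ω k).1 univ).toReal) ∂(J (ω k).1) ∂P := h1
    rw [h2]
    simp only [ha]
    refine lintegral_mono_ae ?_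
    filter_upwards [hTpos] with ω hω
    have hprob := isProb_exp J hJ (ω k).1
    have hq := hJ (ω k).1
    by_cases hi : idx S r k ω < r
    · have hnot : (ω k).1 ∉ S (idx S r k ω + 1) := by
        rcases k with _ | k
        · exact adv_not S r 0 (ω 0).1 hi
        · exact adv_not S r (idx S r k ω) (ω (k + 1)).1 hi
      have h3 : Φ (idx S r k ω) (ω k) = w (ω k).2 * Ψ (idx S r k ω) (ω k).1 := by
        simp only [hΦ, hi, if_true]
      rw [h3]
      have h4 : w (ω k).2 * ((J (ω k).1 univ + d)⁻¹ * ∫⁻ y, Ψ (idx S r k ω) y ∂(J (ω k).1)) ≤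
          (J (ω k).1 univ)⁻¹ * ∫⁻ y, ∫⁻ s,
            Φ (adv S r (idx S r k ω) y) (y, (ω k).2 + s)
            ∂(expMeasure (J (ω k).1 univ).toReal) ∂(J (ω k).1) := by
        simp only [hw, hd]
        rw [← inner_exp J hJ δ hδ.le]
        refine mul_le_mul_right ?_ _
        refine lintegral_mono fun y => ?_
        refine lintegral_mono_ae ?_
        filter_upwards [exp_ae_pos (J (ω k).1 univ).toReal] with s hs
        have h5 : 0 ≤ (ω k).2 + s := add_nonneg (hω k) hs.le
        have h6 : Ψ (idx S r k ω) y * w ((ω k).2 + s) ≤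
            w ((ω k).2 + s) * Ψ (adv S r (idx S r k ω) y) y := by
          rw [mul_comm]
          exact mul_le_mul_right (hΨadv _ _) _
        refine h6.trans ?_
        simp only [hΦ]
        split_ifs with h7
        · exact le_rfl
        · exact mul_le_one' (hw1 _ h5) (hΨ1 _ _)
      refine le_trans ?_ h4
      refine mul_le_mul_right ?_ _
      have h5 : (J (ω k).1 univ + d) * Ψ (idx S r k ω) (ω k).1 ≤
          ∫⁻ y, Ψ (idx S r k ω) y ∂(J (ω k).1) := by
        simp only [hΨ, hi, if_true]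
        rw [lintegral_mul_const _ (measurable_of_countable _), ← mul_assoc]
        exact mul_le_mul_left (hUs _ _ hnot) _
      have h6 : J (ω k).1 univ + d ≠ 0 := fun h => hd0 (add_eq_zero.1 h).2
      have h7 : J (ω k).1 univ + d ≠ ⊤ := ENNReal.add_ne_top.2 ⟨hq.2, ENNReal.ofReal_ne_top⟩
      calc Ψ (idx S r k ω) (ω k).1 = (J (ω k).1 univ + d)⁻¹ *
            ((J (ω k).1 univ + d) * Ψ (idx S r k ω) (ω k).1) := by
            rw [← mul_assoc, ENNReal.inv_mul_cancel h6 h7, one_mul]
        _ ≤ _ := mul_le_mul_right h5 _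
    · have h3 : Φ (idx S r k ω) (ω k) = 1 := by
        simp only [hΦ, hi, if_false]
      have h4 : ∀ y s, Φ (adv S r (idx S r k ω) y) (y, (ω k).2 + s) = 1 := by
        intro y s
        have := adv_ge S r (idx S r k ω) y
        have h5 : ¬ adv S r (idx S r k ω) y < r := by omega
        simp only [hΦ, h5, if_false]
      rw [h3]
      simp_rw [h4]
      simp only [lintegral_const, measure_univ, mul_one]
      rw [one_mul, ENNReal.inv_mul_cancel hq.1 hq.2]
  have ha0 : ∏ i ∈ Finset.range r, c i ≤ a 0 := by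
    have h1 : a 0 = Φ (adv S r 0 x0) (x0, 0) := by
      have := lint_zero J hJ x0 (fun z => Φ (adv S r 0 z.1) z) (by
        have hadv : Measurable fun p : ℕ × X => adv S r p.1 p.2 := measurable_of_countable _
        exact hΦm.comp (f := fun z : X × ℝ => ((fun q : ℕ × X => adv S r q.1 q.2) (0, z.1), z))
          ((hadv.comp (by fun_prop)).prodMk measurable_id))
      exact this
    rw [h1]
    simp only [hΦ]
    split_ifs with h2
    · have h3 : w 0 = 1 := by
        simp only [hw]
        simp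
      rw [h3, one_mul]
      refine le_trans ?_ (hΨadv 0 x0)
      have hr : 0 < r := lt_of_le_of_lt (Nat.zero_le _) h2
      simp only [hΨ, hr, if_true]
      rw [Finset.range_eq_Ico, Finset.prod_eq_prod_Ico_succ_bot hr]
      exact mul_le_mul_left (hUc 0 hr x0 hx0) _
    · exact hprod1 _
  have hak : ∀ k, ∏ i ∈ Finset.range r, c i ≤ a k := by
    intro k
    induction k with
    | zero => exact ha0
    | succ k ih => exact ih.trans (hmono k)
  set A : Set (ℕ → X × ℝ) := {ω | ∃ k, r ≤ idx S r k ω} with hA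
  have hle : ∀ k, a k ≤ ∫⁻ ω, w (ω k).2 ∂P + P A := by
    intro k
    have hBm : MeasurableSet {ω : ℕ → X × ℝ | r ≤ idx S r k ω} :=
      (idx_meas S r k) (MeasurableSet.of_discrete (s := {i : ℕ | r ≤ i}))
    calc a k ≤ ∫⁻ ω, (w (ω k).2 + {ω : ℕ → X × ℝ | r ≤ idx S r k ω}.indicator 1 ω) ∂P := by
          refine lintegral_mono fun ω => ?_
          simp only [hΦ]
          split_ifs with h
          · refine le_trans ?_ le_self_add
            calc w (ω k).2 * Ψ (idx S r k ω) (ω k).1 ≤ w (ω k).2 * 1 :=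
                  mul_le_mul_right (hΨ1 _ _) _
              _ = _ := mul_one _
          · refine le_trans ?_ le_add_self
            rw [indicator_of_mem (by exact not_lt.1 h)]
            rfl
      _ = ∫⁻ ω, w (ω k).2 ∂P + P {ω | r ≤ idx S r k ω} := by
          rw [lintegral_add_left (by fun_prop), lintegral_indicator_one hBm]
      _ ≤ _ := by
          gcongr
          intro ω h
          exact ⟨k, h⟩
  have hlim : Tendsto (fun k => ∫⁻ ω, w (ω k).2 ∂P) atTop (nhds 0) := by
    have h1 : Tendsto (fun k => ∫⁻ ω, w (ω k).2 ∂P) atTop (nhds (∫⁻ _ω, 0 ∂P)) := by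
      apply tendsto_lintegral_of_dominated_convergence (fun _ => 1)
      · intro k
        fun_prop
      · intro k
        filter_upwards [hTpos] with ω hω
        exact hw1 _ (hω k)
      · simp
      · filter_upwards [hT] with ω hω
        have h2 : Tendsto (fun k => Real.exp (-(δ * (ω k).2))) atTop (nhds 0) := by
          apply Real.tendsto_exp_neg_atTop_nhds_zero.comp
          exact hω.const_mul_atTop hδ
        have h3 := ENNReal.tendsto_ofReal h2
        rw [ENNReal.ofReal_zero] at h3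
        exact h3
    rwa [lintegral_zero] at h1
  have hPA : ∏ i ∈ Finset.range r, c i ≤ P A := by
    have h1 : Tendsto (fun k => ∫⁻ ω, w (ω k).2 ∂P + P A) atTop (nhds (0 + P A)) :=
      hlim.add tendsto_const_nhds
    rw [zero_add] at h1
    exact ge_of_tendsto' h1 fun k => (hak k).trans (hle k)
  refine hPA.trans (measure_mono_ae ?_)
  filter_upwards [law_ae_zero J hJ x0] with ω h0
  intro hω
  obtain ⟨k, hk⟩ := hω
  obtain ⟨κ, h1, h2⟩ := idx_kappa S r ω (by rw [h0]; exact hx0) k
  exact ⟨κ, fun i hi => h1 i (by omega), fun i hi => (h2 i (by omega)).2⟩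

end Pool.Agent.W880.CP
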