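import Pool.Agent.W880.CP.Step

/-! CP-NE: non-explosion criterion (MP_2b201f_pr). -/

set_option autoImplicit false
set_option linter.unusedSectionVars false

namespace Pool.Agent.W880.CP

open MeasureTheory ProbabilityTheory Pool.Agent.W845.CP Set Filter
open scoped ENNReal

section

variable {X : Type} [MeasurableSpace X] [Countable X] [DiscreteMeasurableSpace X]

/-- discounted one step formula -/
theorem tower_exp (J : X → Measure X) (hJ : GoodJ J) (x0 : X) (D : ℝ) (hD : 0 ≤ D) (k : ℕ)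
    (F : X → X → ℝ≥0∞) :
    ∫⁻ ω, F (ω k).1 (ω (k + 1)).1 * ENNReal.ofReal (Real.exp (-(D * (ω (k + 1)).2)))
        ∂(law J hJ x0) =
      ∫⁻ ω, ENNReal.ofReal (Real.exp (-(D * (ω k).2))) *
        ((J (ω k).1 univ + ENNReal.ofReal D)⁻¹ * ∫⁻ y, F (ω k).1 y ∂(J (ω k).1))
        ∂(law J hJ x0) := by
  have hFm : Measurable fun p : X × X => F p.1 p.2 := measurable_of_countable _
  have h := tower1 J hJ x0 k (fun z w => F z.1 w.1 * ENNReal.ofReal (Real.exp (-(D * w.2)))) (by
    change Measurable fun p : (X × ℝ) × (X × ℝ) =>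
      F p.1.1 p.2.1 * ENNReal.ofReal (Real.exp (-(D * p.2.2)))
    have e : Measurable fun p : (X × ℝ) × (X × ℝ) => F p.1.1 p.2.1 :=
      hFm.comp (f := fun p : (X × ℝ) × (X × ℝ) => (p.1.1, p.2.1)) (by fun_prop)
    exact e.mul (by fun_prop))
  rw [h]
  refine lintegral_congr fun ω => ?_
  have hq := hJ (ω k).1
  have hr : 0 < (J (ω k).1 univ).toReal := ENNReal.toReal_pos hq.1 hq.2
  have hrq : ENNReal.ofReal (J (ω k).1 univ).toReal = J (ω k).1 univ := ENNReal.ofReal_toReal hq.2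
  have e1 : ∀ y, ∫⁻ s, F (ω k).1 y * ENNReal.ofReal (Real.exp (-(D * ((ω k).2 + s))))
      ∂(expMeasure (J (ω k).1 univ).toReal) =
      F (ω k).1 y * (ENNReal.ofReal (Real.exp (-(D * (ω k).2))) *
        (J (ω k).1 univ * (J (ω k).1 univ + ENNReal.ofReal D)⁻¹)) := by
    intro y
    have e2 : ∀ s : ℝ, ENNReal.ofReal (Real.exp (-(D * ((ω k).2 + s)))) =
        ENNReal.ofReal (Real.exp (-(D * (ω k).2))) * ENNReal.ofReal (Real.exp (-(D * s))) := by
      intro s
      rw [← ENNReal.ofReal_mul (Real.exp_nonneg _), ← Real.exp_add]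
      congr 2
      ring
    simp_rw [e2]
    rw [lintegral_const_mul _ (by fun_prop), lintegral_const_mul _ (by fun_prop),
      lint_exp_laplace _ D hr hD, ENNReal.ofReal_div_of_pos (by linarith),
      ENNReal.ofReal_add hr.le hD, hrq, div_eq_mul_inv]
  dsimp only
  simp_rw [e1]
  rw [lintegral_mul_const _ (measurable_of_countable _)]
  have e3 : (J (ω k).1 univ)⁻¹ * ((∫⁻ y, F (ω k).1 y ∂(J (ω k).1)) *
      (ENNReal.ofReal (Real.exp (-(D * (ω k).2))) *
        (J (ω k).1 univ * (J (ω k).1 univ + ENNReal.ofReal D)⁻¹))) =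
      ((J (ω k).1 univ)⁻¹ * J (ω k).1 univ) * (ENNReal.ofReal (Real.exp (-(D * (ω k).2))) *
        ((J (ω k).1 univ + ENNReal.ofReal D)⁻¹ * ∫⁻ y, F (ω k).1 y ∂(J (ω k).1))) := by
    ring
  rw [e3, ENNReal.inv_mul_cancel hq.1 hq.2, one_mul]

end

theorem ne : St_NE := by
  intro X _ _ _ J hJ x0 h C c hC hc hx0 h1 h2
  set P := law J hJ x0 with hP
  set D : ℝ := C.toReal + 1 with hD
  have hD0 : 0 < D := by
    rw [hD]
    positivity
  set d : ℝ≥0∞ := ENNReal.ofReal D with hd
  have hdC : C ≤ d := by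
    rw [hd, hD, ENNReal.ofReal_add (by positivity) (by norm_num), ENNReal.ofReal_toReal hC]
    exact le_self_add
  have hd0 : d ≠ 0 := by
    rw [hd, ne_eq, ENNReal.ofReal_eq_zero, not_le]
    exact hD0
  have hdT : d ≠ ⊤ := ENNReal.ofReal_ne_top
  set H : X → ℝ≥0∞ := fun x => h x + 1 with hH
  set e : ℕ → (ℕ → X × ℝ) → ℝ≥0∞ := fun k ω => ENNReal.ofReal (Real.exp (-(D * (ω k).2))) with he
  have hem : ∀ k, Measurable (e k) := by
    intro k
    simp only [he]
    fun_prop
  set Q : X → ℝ≥0∞ := fun x => J x univ + d with hQ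
  have hQ0 : ∀ x, Q x ≠ 0 := fun x => by
    simp only [hQ]
    intro h
    exact hd0 (add_eq_zero.1 h).2
  have hQT : ∀ x, Q x ≠ ⊤ := fun x => ENNReal.add_ne_top.2 ⟨(hJ x).2, hdT⟩
  have hHm : Measurable H := measurable_of_countable _
  have hQm : Measurable Q := measurable_of_countable _
  have h0 : ∀ F : X → ℝ≥0∞, ∫⁻ ω, F (ω 0).1 * e 0 ω ∂P = F x0 := by
    intro F
    have hF : Measurable F := measurable_of_countable _
    have := lint_zero J hJ x0 (fun z => F z.1 * ENNReal.ofReal (Real.exp (-(D * z.2))))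
      (by fun_prop)
    rw [hP, this]
    simp
  -- (1)
  have hsup : ∀ k, ∫⁻ ω, H (ω k).1 * e k ω ∂P ≤ H x0 := by
    intro k
    induction k with
    | zero => exact (h0 H).le
    | succ k ih =>
      refine le_trans ?_ ih
      rw [hP, tower_exp J hJ x0 D hD0.le k (fun _ y => H y)]
      refine lintegral_mono fun ω => ?_
      dsimp only
      rw [mul_comm (H _)]
      refine mul_le_mul_right ?_ _
      have h3 : ∫⁻ y, H y ∂(J (ω k).1) ≤ Q (ω k).1 * H (ω k).1 := by
        simp only [hH, hQ]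
        rw [lintegral_add_right _ measurable_const, lintegral_one]
        calc ∫⁻ y, h y ∂(J (ω k).1) + J (ω k).1 univ
            ≤ (J (ω k).1 univ + C) * h (ω k).1 + J (ω k).1 univ := by
              gcongr
              exact h1 _
          _ ≤ (J (ω k).1 univ + d) * h (ω k).1 + (J (ω k).1 univ + d) := by
              gcongr
              exact le_self_add
          _ = _ := by ring
      calc (Q (ω k).1)⁻¹ * ∫⁻ y, H y ∂(J (ω k).1) ≤ (Q (ω k).1)⁻¹ * (Q (ω k).1 * H (ω k).1) :=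
            mul_le_mul_right h3 _
        _ = H (ω k).1 := by
            rw [← mul_assoc, ENNReal.inv_mul_cancel (hQ0 _) (hQT _), one_mul]
  -- (2)
  set a : ℕ → ℝ≥0∞ := fun k => ∫⁻ ω, (Q (ω k).1)⁻¹ * e k ω ∂P with ha
  have hstep : ∀ k, ∫⁻ ω, e (k + 1) ω ∂P + d * a k = ∫⁻ ω, e k ω ∂P := by
    intro k
    have h3 := tower_exp J hJ x0 D hD0.le k (fun _ _ => 1)
    simp only [one_mul, lintegral_one] at h3
    have h4 : ∫⁻ ω, e (k + 1) ω ∂P = ∫⁻ ω, e k ω * ((Q (ω k).1)⁻¹ * J (ω k).1 univ) ∂P := h3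
    have hqm : Measurable fun x : X => J x univ := measurable_of_countable _
    rw [h4]
    simp only [ha]
    rw [← lintegral_const_mul _ (by fun_prop), ← lintegral_add_left (by fun_prop)]
    refine lintegral_congr fun ω => ?_
    have h5 : e k ω * ((Q (ω k).1)⁻¹ * J (ω k).1 univ) + d * ((Q (ω k).1)⁻¹ * e k ω) =
        ((Q (ω k).1)⁻¹ * Q (ω k).1) * e k ω := by
      simp only [hQ]
      ring
    rw [h5, ENNReal.inv_mul_cancel (hQ0 _) (hQT _), one_mul]
  have hsum : ∀ n, ∑ k ∈ Finset.range n, d * a k + ∫⁻ ω, e n ω ∂P ≤ 1 := by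
    intro n
    induction n with
    | zero =>
      rw [Finset.sum_range_zero, zero_add]
      have := h0 (fun _ => 1)
      simp only [one_mul] at this
      exact this.le
    | succ n ih =>
      rw [Finset.sum_range_succ, add_assoc, add_comm (d * a n), hstep n]
      exact ih
  have hat : Tendsto (fun k => d * a k) atTop (nhds 0) := by
    apply ENNReal.tendsto_atTop_zero_of_tsum_ne_top
    refine ne_top_of_le_ne_top ENNReal.one_ne_top (ENNReal.tsum_le_of_sum_range_le (c := 1) ?_)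
    intro n
    exact le_self_add.trans (hsum n)
  have hat' : Tendsto a atTop (nhds 0) := by
    have h3 := ENNReal.Tendsto.const_mul (a := d⁻¹) hat (Or.inr (ENNReal.inv_ne_top.2 hd0))
    rw [mul_zero] at h3
    refine h3.congr fun k => ?_
    rw [← mul_assoc, ENNReal.inv_mul_cancel hd0 hdT, one_mul]
  -- (3)
  have hbound : ∀ (ρ : ℝ≥0∞), ρ ≠ 0 → ρ ≠ ⊤ → ∀ k,
      ∫⁻ ω, e k ω ∂P ≤ ρ * ((c + d) * H x0) + ρ⁻¹ * a k := by
    intro ρ hρ0 hρT k
    calc ∫⁻ ω, e k ω ∂P ≤ ∫⁻ ω, (ρ * (c + d)) * (H (ω k).1 * e k ω) +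
          ρ⁻¹ * ((Q (ω k).1)⁻¹ * e k ω) ∂P := by
          refine lintegral_mono fun ω => ?_
          have h3 : (1 : ℝ≥0∞) ≤ ρ * Q (ω k).1 + (ρ * Q (ω k).1)⁻¹ := by
            rcases le_total 1 (ρ * Q (ω k).1) with h4 | h4
            · exact h4.trans le_self_add
            · exact (ENNReal.one_le_inv.2 h4).trans le_add_self
          have h5 : Q (ω k).1 ≤ (c + d) * H (ω k).1 := by
            simp only [hQ, hH]
            calc J (ω k).1 univ + d ≤ c * (h (ω k).1 + 1) + d * (h (ω k).1 + 1) := by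
                  gcongr
                  · exact h2 _
                  · exact le_mul_of_one_le_right' le_add_self
              _ = _ := by ring
          calc e k ω = 1 * e k ω := (one_mul _).symm
            _ ≤ (ρ * Q (ω k).1 + (ρ * Q (ω k).1)⁻¹) * e k ω := by
                gcongr
            _ ≤ (ρ * ((c + d) * H (ω k).1) + ρ⁻¹ * (Q (ω k).1)⁻¹) * e k ω := by
                rw [ENNReal.mul_inv (Or.inl hρ0) (Or.inl hρT)]
                gcongr
            _ = _ := by ring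
      _ = (ρ * (c + d)) * ∫⁻ ω, H (ω k).1 * e k ω ∂P + ρ⁻¹ * a k := by
          rw [lintegral_add_left (by fun_prop), lintegral_const_mul _ (by fun_prop),
            lintegral_const_mul _ (by fun_prop)]
      _ ≤ (ρ * (c + d)) * H x0 + ρ⁻¹ * a k := by
          gcongr
          exact hsup k
      _ = _ := by ring
  set L : (ℕ → X × ℝ) → ℝ≥0∞ := fun ω => ⨅ k, e k ω with hL
  have hLm : Measurable L := Measurable.iInf hem
  have hLb : ∀ (ρ : ℝ≥0∞), ρ ≠ 0 → ρ ≠ ⊤ → ∫⁻ ω, L ω ∂P ≤ ρ * ((c + d) * H x0) := by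
    intro ρ hρ0 hρT
    have h3 : Tendsto (fun k => ρ * ((c + d) * H x0) + ρ⁻¹ * a k) atTop
        (nhds (ρ * ((c + d) * H x0) + 0)) := by
      apply Tendsto.add tendsto_const_nhds
      have h4 := ENNReal.Tendsto.const_mul (a := ρ⁻¹) hat' (Or.inr (ENNReal.inv_ne_top.2 hρ0))
      rwa [mul_zero] at h4
    rw [add_zero] at h3
    refine ge_of_tendsto' h3 fun k => ?_
    exact (lintegral_mono fun ω => iInf_le _ k).trans (hbound ρ hρ0 hρT k)
  have hK : (c + d) * H x0 ≠ ⊤ :=
    ENNReal.mul_ne_top (ENNReal.add_ne_top.2 ⟨hc, hdT⟩) (ENNReal.add_ne_top.2 ⟨hx0, by simp⟩)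
  have hL0 : ∫⁻ ω, L ω ∂P = 0 := by
    have h3 : Tendsto (fun n : ℕ => ((n : ℝ≥0∞) + 1)⁻¹ * ((c + d) * H x0)) atTop
        (nhds (0 * ((c + d) * H x0))) := by
      apply ENNReal.Tendsto.mul_const _ (Or.inr hK)
      have h4 := (tendsto_add_atTop_iff_nat (f := fun n : ℕ => ((n : ℝ≥0∞))⁻¹) 1).2
        ENNReal.tendsto_inv_nat_nhds_zero
      refine h4.congr fun n => ?_
      push_cast
      rfl
    rw [zero_mul] at h3
    refine le_antisymm (ge_of_tendsto' h3 fun n => ?_) bot_le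
    apply hLb
    · exact ENNReal.inv_ne_zero.2 (ENNReal.add_ne_top.2 ⟨ENNReal.natCast_ne_top n, by simp⟩)
    · exact ENNReal.inv_ne_top.2 (by simp)
  rw [lintegral_eq_zero_iff hLm] at hL0
  have hstp := step X J hJ x0 (fun _ _ => True) (fun x => Filter.Eventually.of_forall fun _ => trivial)
  filter_upwards [hL0, hstp] with ω h3 h4
  have hmono : Monotone fun k => (ω k).2 := monotone_nat_of_le_succ fun k => (h4.2 k).2.le
  refine tendsto_atTop_atTop_of_monotone hmono fun b => ?_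
  have h5 : L ω < ENNReal.ofReal (Real.exp (-(D * b))) := by
    rw [h3]
    simp only [Pi.zero_apply]
    rw [ENNReal.ofReal_pos]
    exact Real.exp_pos _
  obtain ⟨k, hk⟩ := iInf_lt_iff.1 h5
  refine ⟨k, ?_⟩
  have h6 := (ENNReal.ofReal_lt_ofReal_iff (Real.exp_pos _)).1 hk
  rw [Real.exp_lt_exp] at h6
  by_contra h7
  push Not at h7
  have := mul_lt_mul_of_pos_left h7 hD0
  linarith

end Pool.Agent.W880.CP
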