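import Pool.Agent.W845.CP.Base2

/-! CP-REG: hitting functions and Green functions on finite regions (MP_2b201f_pr). -/

set_option autoImplicit false
set_option linter.unusedSectionVars false

namespace Pool.Agent.W880.CP

open Pool.Agent.W845.CP Filter

section UU

variable {V : Type} [DecidableEq V] (nb : V → Finset V) (lam : ℝ) (R : Finset V)

/-- infection attempt from `x` to `y` -/
def ins (x y : V) (A : Finset V) : Finset V := if x ∈ A then insert y A else A

/-- uniformization rate -/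
noncomputable def LL : ℝ := (R.card : ℝ) + lam * ∑ x ∈ R, ((nb x).card : ℝ) + 1

/-- uniformized transition operator -/
noncomputable def UU (f : Finset V → ℝ) (A : Finset V) : ℝ :=
  (∑ x ∈ R, f (A.erase x) + lam * ∑ x ∈ R, ∑ y ∈ nb x, f (ins x y A) + f A) / LL nb lam R

theorem ins_mono (x y : V) (A B : Finset V) (h : A ⊆ B) : ins x y A ⊆ ins x y B := by
  unfold ins
  by_cases h1 : x ∈ A
  · rw [if_pos h1, if_pos (h h1)]
    exact Finset.insert_subset_insert _ h
  · rw [if_neg h1]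
    split_ifs
    · exact h.trans (Finset.subset_insert _ _)
    · exact h

theorem ins_union (x y : V) (A B : Finset V) : ins x y (A ∪ B) = ins x y A ∪ ins x y B := by
  unfold ins
  by_cases h1 : x ∈ A <;> by_cases h2 : x ∈ B <;> simp [h1, h2, Finset.insert_union]

theorem ins_empty (x y : V) : ins x y ∅ = ∅ := by
  unfold ins
  simp

theorem LL_pos (hl : 0 ≤ lam) : 0 < LL nb lam R := by
  unfold LL
  positivity

theorem UU_le (hl : 0 ≤ lam) (f g : Finset V → ℝ) (h : ∀ A, f A ≤ g A) (A : Finset V) :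
    UU nb lam R f A ≤ UU nb lam R g A := by
  unfold UU
  refine div_le_div_of_nonneg_right ?_ (LL_pos nb lam R hl).le
  refine add_le_add (add_le_add ?_ (mul_le_mul_of_nonneg_left ?_ hl)) (h A)
  · exact Finset.sum_le_sum fun x _ => h _
  · exact Finset.sum_le_sum fun x _ => Finset.sum_le_sum fun y _ => h _

theorem UU_le' (hl : 0 ≤ lam) (hR : ∀ x ∈ R, nb x ⊆ R) (f g : Finset V → ℝ)
    (h : ∀ A, A ⊆ R → f A ≤ g A) (A : Finset V) (hA : A ⊆ R) :
    UU nb lam R f A ≤ UU nb lam R g A := by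
  unfold UU
  refine div_le_div_of_nonneg_right ?_ (LL_pos nb lam R hl).le
  refine add_le_add (add_le_add ?_ (mul_le_mul_of_nonneg_left ?_ hl)) (h A hA)
  · exact Finset.sum_le_sum fun x _ => h _ ((Finset.erase_subset _ _).trans hA)
  · refine Finset.sum_le_sum fun x hx => Finset.sum_le_sum fun y hy => h _ ?_
    unfold ins
    split_ifs
    · exact Finset.insert_subset (hR x hx hy) hA
    · exact hA

theorem UU_const (hl : 0 ≤ lam) (c : ℝ) (A : Finset V) : UU nb lam R (fun _ => c) A = c := by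
  have h := LL_pos nb lam R hl
  unfold UU
  rw [div_eq_iff h.ne']
  simp only [Finset.sum_const, nsmul_eq_mul]
  rw [← Finset.sum_mul]
  unfold LL
  ring

theorem UU_smul (c : ℝ) (f : Finset V → ℝ) (A : Finset V) :
    UU nb lam R (fun B => c * f B) A = c * UU nb lam R f A := by
  unfold UU
  simp only [← Finset.mul_sum]
  ring

theorem UU_mono (hl : 0 ≤ lam) (f : Finset V → ℝ) (hf : ∀ A B, A ⊆ B → f A ≤ f B)
    (A B : Finset V) (h : A ⊆ B) : UU nb lam R f A ≤ UU nb lam R f B := by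
  unfold UU
  refine div_le_div_of_nonneg_right ?_ (LL_pos nb lam R hl).le
  refine add_le_add (add_le_add ?_ (mul_le_mul_of_nonneg_left ?_ hl)) (hf A B h)
  · exact Finset.sum_le_sum fun x _ => hf _ _ (Finset.erase_subset_erase _ h)
  · exact Finset.sum_le_sum fun x _ => Finset.sum_le_sum fun y _ => hf _ _ (ins_mono x y A B h)

theorem UU_subadd (hl : 0 ≤ lam) (f : Finset V → ℝ) (hf : ∀ A B, f (A ∪ B) ≤ f A + f B)
    (A B : Finset V) : UU nb lam R f (A ∪ B) ≤ UU nb lam R f A + UU nb lam R f B := by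
  unfold UU
  rw [← add_div]
  refine div_le_div_of_nonneg_right ?_ (LL_pos nb lam R hl).le
  have h1 : ∑ x ∈ R, f ((A ∪ B).erase x) ≤ ∑ x ∈ R, f (A.erase x) + ∑ x ∈ R, f (B.erase x) := by
    rw [← Finset.sum_add_distrib]
    refine Finset.sum_le_sum fun x _ => ?_
    have e : (A ∪ B).erase x = A.erase x ∪ B.erase x := by
      ext z
      simp only [Finset.mem_erase, Finset.mem_union]
      tauto
    rw [e]
    exact hf _ _
  have h2 : ∑ x ∈ R, ∑ y ∈ nb x, f (ins x y (A ∪ B)) ≤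
      ∑ x ∈ R, ∑ y ∈ nb x, f (ins x y A) + ∑ x ∈ R, ∑ y ∈ nb x, f (ins x y B) := by
    rw [← Finset.sum_add_distrib]
    refine Finset.sum_le_sum fun x _ => ?_
    rw [← Finset.sum_add_distrib]
    refine Finset.sum_le_sum fun y _ => ?_
    rw [ins_union]
    exact hf _ _
  have h3 := mul_le_mul_of_nonneg_left h2 hl
  have h4 := hf A B
  rw [mul_add] at h3
  linarith

theorem UU_empty (f : Finset V → ℝ) (hf : f ∅ = 0) : UU nb lam R f ∅ = 0 := by
  unfold UU
  simp [ins_empty, hf]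

theorem gen_UU (hl : 0 ≤ lam) (f : Finset V → ℝ) (A : Finset V) (hA : A ⊆ R) :
    gen nb lam f A = LL nb lam R * (UU nb lam R f A - f A) := by
  have hL := (LL_pos nb lam R hl).ne'
  have h1 : ∑ x ∈ A, (f (A.erase x) - f A) = ∑ x ∈ R, (f (A.erase x) - f A) := by
    refine Finset.sum_subset hA fun x _ hx => ?_
    rw [Finset.erase_eq_of_notMem hx, sub_self]
  have h2 : ∑ x ∈ A, ∑ y ∈ nb x, (f (insert y A) - f A) =
      ∑ x ∈ R, ∑ y ∈ nb x, (f (ins x y A) - f A) := by
    have e : ∑ x ∈ A, ∑ y ∈ nb x, (f (insert y A) - f A) =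
        ∑ x ∈ A, ∑ y ∈ nb x, (f (ins x y A) - f A) := by
      refine Finset.sum_congr rfl fun x hx => Finset.sum_congr rfl fun y _ => ?_
      unfold ins
      rw [if_pos hx]
    rw [e]
    refine Finset.sum_subset hA fun x _ hx => ?_
    refine Finset.sum_eq_zero fun y _ => ?_
    unfold ins
    rw [if_neg hx, sub_self]
  unfold gen
  rw [h1, h2]
  unfold UU
  rw [mul_sub, mul_div_cancel₀ _ hL]
  simp only [Finset.sum_sub_distrib, Finset.sum_const, nsmul_eq_mul]
  rw [← Finset.sum_mul]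
  unfold LL
  ring

theorem UU_tendsto (hR : ∀ x ∈ R, nb x ⊆ R) (f : ℕ → Finset V → ℝ) (g : Finset V → ℝ)
    (h : ∀ A, A ⊆ R → Tendsto (fun n => f n A) atTop (nhds (g A))) (A : Finset V) (hA : A ⊆ R) :
    Tendsto (fun n => UU nb lam R (f n) A) atTop (nhds (UU nb lam R g A)) := by
  unfold UU
  refine Tendsto.div_const (Tendsto.add (Tendsto.add ?_ (Tendsto.const_mul _ ?_)) (h A hA)) _
  · exact tendsto_finsetSum _ fun x _ => h _ ((Finset.erase_subset _ _).trans hA)
  · refine tendsto_finsetSum _ fun x hx => tendsto_finsetSum _ fun y hy => h _ ?_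
    unfold ins
    split_ifs
    · exact Finset.insert_subset (hR x hx hy) hA
    · exact hA

open Classical in
/-- iteration for the hitting function -/
noncomputable def hitN (T : Finset V → Prop) (ρ : ℝ) : ℕ → Finset V → ℝ
  | 0, _ => 0
  | n + 1, A => if T A then 1 else ρ * UU nb lam R (hitN T ρ n) A

theorem hitN_pos (T : Finset V → Prop) (ρ : ℝ) (n : ℕ) (A : Finset V) (h : T A) :
    hitN nb lam R T ρ (n + 1) A = 1 := by
  simp only [hitN]
  rw [if_pos h]

theorem hitN_neg (T : Finset V → Prop) (ρ : ℝ) (n : ℕ) (A : Finset V) (h : ¬ T A) :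
    hitN nb lam R T ρ (n + 1) A = ρ * UU nb lam R (hitN nb lam R T ρ n) A := by
  simp only [hitN]
  rw [if_neg h]

theorem hitN_props (hl : 0 ≤ lam) (T : Finset V → Prop) (hT : ∀ A B, A ⊆ B → T A → T B)
    (hT0 : ¬ T ∅) (ρ : ℝ) (hρ0 : 0 ≤ ρ) (hρ1 : ρ ≤ 1) (n : ℕ) :
    (∀ A, 0 ≤ hitN nb lam R T ρ n A) ∧ (∀ A, hitN nb lam R T ρ n A ≤ 1) ∧
    (∀ A, hitN nb lam R T ρ n A ≤ hitN nb lam R T ρ (n + 1) A) ∧
    (∀ A B, A ⊆ B → hitN nb lam R T ρ n A ≤ hitN nb lam R T ρ n B) ∧
    hitN nb lam R T ρ n ∅ = 0 := by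
  induction n with
  | zero =>
    refine ⟨fun A => le_rfl, fun A => ?_, fun A => ?_, fun A B _ => le_rfl, rfl⟩
    · simp [hitN]
    · simp only [hitN]
      split_ifs
      · norm_num
      · have := UU_const nb lam R hl 0 A
        rw [this, mul_zero]
  | succ n ih =>
    obtain ⟨h1, h2, h3, h4, h5⟩ := ih
    have hU0 : ∀ A, 0 ≤ UU nb lam R (hitN nb lam R T ρ n) A := by
      intro A
      have := UU_le nb lam R hl (fun _ => 0) _ h1 A
      rwa [UU_const nb lam R hl] at this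
    have hU1 : ∀ A, UU nb lam R (hitN nb lam R T ρ n) A ≤ 1 := by
      intro A
      have := UU_le nb lam R hl _ (fun _ => 1) h2 A
      rwa [UU_const nb lam R hl] at this
    refine ⟨fun A => ?_, fun A => ?_, fun A => ?_, fun A B hAB => ?_, ?_⟩
    · simp only [hitN]
      split_ifs
      · norm_num
      · exact mul_nonneg hρ0 (hU0 A)
    · simp only [hitN]
      split_ifs
      · exact le_rfl
      · exact mul_le_one₀ hρ1 (hU0 A) (hU1 A)
    · by_cases hA : T A
      · rw [hitN_pos nb lam R T ρ n A hA, hitN_pos nb lam R T ρ (n + 1) A hA]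
      · rw [hitN_neg nb lam R T ρ n A hA, hitN_neg nb lam R T ρ (n + 1) A hA]
        exact mul_le_mul_of_nonneg_left (UU_le nb lam R hl _ _ h3 A) hρ0
    · simp only [hitN]
      by_cases hB : T B
      · rw [if_pos hB]
        split_ifs
        · exact le_rfl
        · exact mul_le_one₀ hρ1 (hU0 A) (hU1 A)
      · rw [if_neg hB, if_neg fun h => hB (hT A B hAB h)]
        exact mul_le_mul_of_nonneg_left (UU_mono nb lam R hl _ h4 A B hAB) hρ0
    · simp only [hitN]
      rw [if_neg hT0, UU_empty nb lam R _ h5, mul_zero]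

/-- the limit -/
theorem hit_limit (hl : 0 ≤ lam) (hR : ∀ x ∈ R, nb x ⊆ R) (T : Finset V → Prop)
    (hT : ∀ A B, A ⊆ B → T A → T B) (hT0 : ¬ T ∅) (δ : ℝ) (hδ : 0 ≤ δ) :
    ∃ u : Finset V → ℝ, (∀ A, Tendsto (fun n => hitN nb lam R T (LL nb lam R / (LL nb lam R + δ)) n A)
        atTop (nhds (u A))) ∧ (∀ n A, hitN nb lam R T (LL nb lam R / (LL nb lam R + δ)) n A ≤ u A) ∧
      (∀ A, 0 ≤ u A) ∧ (∀ A, u A ≤ 1) ∧ (∀ A B, A ⊆ B → u A ≤ u B) ∧ u ∅ = 0 ∧
      (∀ A, T A → u A = 1) ∧ (∀ A, A ⊆ R → ¬ T A → gen nb lam u A = δ * u A) := by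
  have hL := LL_pos nb lam R hl
  set ρ : ℝ := LL nb lam R / (LL nb lam R + δ) with hρ
  have hρ0 : 0 ≤ ρ := by positivity
  have hρ1 : ρ ≤ 1 := by
    rw [hρ, div_le_one (by linarith)]
    linarith
  have hp := hitN_props nb lam R hl T hT hT0 ρ hρ0 hρ1
  have hmono : ∀ A, Monotone fun n => hitN nb lam R T ρ n A := fun A =>
    monotone_nat_of_le_succ fun n => (hp n).2.2.1 A
  have hbdd : ∀ A, BddAbove (Set.range fun n => hitN nb lam R T ρ n A) := by
    intro A
    refine ⟨1, ?_⟩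
    rintro _ ⟨n, rfl⟩
    exact (hp n).2.1 A
  have hlim : ∀ A, Tendsto (fun n => hitN nb lam R T ρ n A) atTop
      (nhds (⨆ n, hitN nb lam R T ρ n A)) := fun A =>
    tendsto_atTop_ciSup (hmono A) (hbdd A)
  refine ⟨fun A => ⨆ n, hitN nb lam R T ρ n A, hlim, fun n A => le_ciSup (hbdd A) n,
    fun A => ?_, fun A => ?_, fun A B h => ?_, ?_, fun A h => ?_, fun A hA h => ?_⟩
  · exact ge_of_tendsto' (hlim A) fun n => (hp n).1 A
  · exact le_of_tendsto' (hlim A) fun n => (hp n).2.1 A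
  · exact le_of_tendsto_of_tendsto' (hlim A) (hlim B) fun n => (hp n).2.2.2.1 A B h
  · have h1 : Tendsto (fun n => hitN nb lam R T ρ n ∅) atTop (nhds 0) := by
      refine tendsto_const_nhds.congr fun n => ((hp n).2.2.2.2).symm
    exact tendsto_nhds_unique (hlim ∅) h1
  · have h1 : Tendsto (fun n => hitN nb lam R T ρ (n + 1) A) atTop (nhds 1) := by
      refine tendsto_const_nhds.congr fun n => ?_
      simp only [hitN]
      rw [if_pos h]
    exact tendsto_nhds_unique ((tendsto_add_atTop_iff_nat 1).2 (hlim A)) h1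
  · have h1 : Tendsto (fun n => hitN nb lam R T ρ (n + 1) A) atTop
        (nhds (ρ * UU nb lam R (fun A => ⨆ n, hitN nb lam R T ρ n A) A)) := by
      have h2 := (UU_tendsto nb lam R hR (hitN nb lam R T ρ)
        (fun A => ⨆ n, hitN nb lam R T ρ n A) (fun B _ => hlim B) A hA).const_mul ρ
      refine h2.congr fun n => ?_
      simp only [hitN]
      rw [if_neg h]
    have h2 := tendsto_nhds_unique ((tendsto_add_atTop_iff_nat 1).2 (hlim A)) h1
    rw [gen_UU nb lam R hl _ A hA]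
    have h3 : (LL nb lam R + δ) * (⨆ n, hitN nb lam R T ρ n A) =
        LL nb lam R * UU nb lam R (fun A => ⨆ n, hitN nb lam R T ρ n A) A := by
      conv_lhs => rw [h2]
      rw [hρ]
      field_simp
    linarith

theorem hitN_cmp (hl : 0 ≤ lam) (T : Finset V → Prop) (ρ : ℝ) (hρ0 : 0 ≤ ρ) (hρ1 : ρ ≤ 1)
    (n : ℕ) (A : Finset V) : ρ ^ n * hitN nb lam R T 1 n A ≤ hitN nb lam R T ρ n A := by
  induction n generalizing A with
  | zero => simp [hitN]
  | succ n ih =>
    simp only [hitN]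
    split_ifs with h
    · rw [mul_one]
      exact pow_le_one₀ hρ0 hρ1
    · have h1 := UU_le nb lam R hl _ _ ih A
      rw [UU_smul] at h1
      have h2 := mul_le_mul_of_nonneg_left h1 hρ0
      calc ρ ^ (n + 1) * (1 * UU nb lam R (hitN nb lam R T 1 n) A) =
            ρ * (ρ ^ n * UU nb lam R (hitN nb lam R T 1 n) A) := by ring
        _ ≤ _ := h2

/-- iteration for the Green function -/
noncomputable def grN (h : Finset V → ℝ) : ℕ → Finset V → ℝ
  | 0, _ => 0
  | n + 1, A => h A + UU nb lam R (grN h n) A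

theorem grN_succ (h : Finset V → ℝ) (n : ℕ) (A : Finset V) :
    grN nb lam R h (n + 1) A = h A + UU nb lam R (grN nb lam R h n) A := rfl

theorem grN_props (hl : 0 ≤ lam) (g : Finset V → ℝ) (hg0 : g ∅ = 0) (hg1 : ∀ A, 0 ≤ g A)
    (hg2 : ∀ A B, A ⊆ B → g A ≤ g B) (hg3 : ∀ A B, g (A ∪ B) ≤ g A + g B) (n : ℕ) :
    (∀ A, 0 ≤ grN nb lam R g n A) ∧ (∀ A, grN nb lam R g n A ≤ grN nb lam R g (n + 1) A) ∧
      (∀ A B, A ⊆ B → grN nb lam R g n A ≤ grN nb lam R g n B) ∧
      (∀ A B, grN nb lam R g n (A ∪ B) ≤ grN nb lam R g n A + grN nb lam R g n B) ∧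
      grN nb lam R g n ∅ = 0 := by
  induction n with
  | zero =>
    refine ⟨fun A => le_rfl, fun A => ?_, fun A B _ => le_rfl, fun A B => ?_, rfl⟩
    · rw [grN_succ]
      have e : grN nb lam R g 0 = fun _ => 0 := by
        funext A
        rfl
      rw [e, UU_const nb lam R hl, add_zero]
      exact hg1 A
    · simp [grN]
  | succ n ih =>
    obtain ⟨h1, h2, h3, h4, h5⟩ := ih
    refine ⟨fun A => ?_, fun A => ?_, fun A B h => ?_, fun A B => ?_, ?_⟩
    · exact (h1 A).trans (h2 A)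
    · rw [grN_succ nb lam R g n, grN_succ nb lam R g (n + 1)]
      exact add_le_add le_rfl (UU_le nb lam R hl _ _ h2 A)
    · rw [grN_succ, grN_succ]
      exact add_le_add (hg2 A B h) (UU_mono nb lam R hl _ h3 A B h)
    · rw [grN_succ, grN_succ, grN_succ]
      have h6 := UU_subadd nb lam R hl _ h4 A B
      have h7 := hg3 A B
      linarith
    · rw [grN_succ, hg0, UU_empty nb lam R _ h5, add_zero]

theorem lyap (hl : 0 ≤ lam) : ∃ (B : Finset V → ℝ) (c : ℝ), 0 < c ∧ (∀ A, 0 ≤ B A) ∧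
    ∀ A, A ⊆ R → A ≠ ∅ → gen nb lam B A ≤ -c := by
  obtain ⟨DD, hDD⟩ : ∃ D : ℝ, D = ∑ x ∈ R, ((nb x).card : ℝ) := ⟨_, rfl⟩
  have hDD0 : 0 ≤ DD := by
    rw [hDD]
    exact Finset.sum_nonneg fun x _ => Nat.cast_nonneg _
  have hlD : 0 ≤ lam * DD := mul_nonneg hl hDD0
  have h1D : 0 < 1 + lam * DD := by linarith
  obtain ⟨θ, hθ⟩ : ∃ θ : ℝ, θ = 1 / (1 + lam * DD) := ⟨_, rfl⟩
  have hθ0 : 0 < θ := by
    rw [hθ]
    exact div_pos one_pos h1D
  have hθ1 : θ ≤ 1 := by
    rw [hθ, div_le_one h1D]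
    linarith
  have hθD : lam * DD * θ = 1 - θ := by
    rw [hθ]
    field_simp
    ring
  obtain ⟨B, hB⟩ : ∃ B : Finset V → ℝ, B = fun A => ∑ i ∈ Finset.range (A.card + 1), θ ^ i :=
    ⟨_, rfl⟩
  have hB0 : ∀ A, 0 ≤ B A := fun A => by
    rw [hB]
    exact Finset.sum_nonneg fun i _ => pow_nonneg hθ0.le _
  obtain ⟨c, hc⟩ : ∃ c : ℝ, c = θ ^ (R.card + 1) := ⟨_, rfl⟩
  have hc0 : 0 < c := by
    rw [hc]
    exact pow_pos hθ0 _
  have hBgen : ∀ A, A ⊆ R → A ≠ ∅ → gen nb lam B A ≤ -c := by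
    intro A hA hne
    have hcard : 1 ≤ A.card := Finset.one_le_card.2 (Finset.nonempty_iff_ne_empty.2 hne)
    have h1 : ∑ x ∈ A, (B (A.erase x) - B A) = ∑ x ∈ A, -(θ ^ A.card) := by
      refine Finset.sum_congr rfl fun x hx => ?_
      simp only [hB]
      rw [Finset.card_erase_of_mem hx]
      have e : A.card - 1 + 1 = A.card := by omega
      rw [e, Finset.sum_range_succ]
      ring
    have h2 : ∑ x ∈ A, ∑ y ∈ nb x, (B (insert y A) - B A) ≤
        ∑ x ∈ A, ∑ y ∈ nb x, θ ^ (A.card + 1) := by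
      refine Finset.sum_le_sum fun x _ => Finset.sum_le_sum fun y _ => ?_
      by_cases hy : y ∈ A
      · rw [Finset.insert_eq_self.2 hy, sub_self]
        exact pow_nonneg hθ0.le _
      · simp only [hB]
        rw [Finset.card_insert_of_notMem hy, Finset.sum_range_succ _ (A.card + 1)]
        linarith
    have h3 : ∑ x ∈ A, ∑ y ∈ nb x, θ ^ (A.card + 1) ≤ DD * θ ^ (A.card + 1) := by
      simp only [Finset.sum_const, nsmul_eq_mul]
      rw [← Finset.sum_mul]
      apply mul_le_mul_of_nonneg_right _ (pow_nonneg hθ0.le _)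
      rw [hDD]
      exact Finset.sum_le_sum_of_subset_of_nonneg hA fun x _ _ => Nat.cast_nonneg _
    unfold gen
    rw [h1, Finset.sum_const, nsmul_eq_mul]
    have h4 := mul_le_mul_of_nonneg_left (h2.trans h3) hl
    have h5 : lam * (DD * θ ^ (A.card + 1)) = (1 - θ) * θ ^ A.card := by
      rw [← hθD]
      ring
    have h6 : (1 : ℝ) ≤ (A.card : ℝ) := by exact_mod_cast hcard
    have h7 : 0 < θ ^ A.card := pow_pos hθ0 _
    have h8 : c ≤ θ * θ ^ A.card := by
      rw [hc, ← pow_succ']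
      exact pow_le_pow_of_le_one hθ0.le hθ1 (by have := Finset.card_le_card hA; omega)
    nlinarith
  exact ⟨B, c, hc0, hB0, hBgen⟩

end UU

theorem reghit : St_REGHIT := by
  intro V _ nb lam hl R hR T hT hT0
  have hL := LL_pos nb lam R hl
  obtain ⟨u, hu1, hu2, hu3, hu4, hu5, hu6, hu7, hu8⟩ :=
    hit_limit nb lam R hl hR T hT hT0 0 le_rfl
  have hρ : LL nb lam R / (LL nb lam R + 0) = 1 := by
    rw [add_zero, div_self hL.ne']
  rw [hρ] at hu1 hu2
  refine ⟨u, ⟨fun A _ => hu3 A, fun A _ => hu4 A, fun A B h _ => hu5 A B h, fun A _ h => hu7 A h,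
    hu6, fun A hA h => by rw [hu8 A hA h, zero_mul]⟩, ?_⟩
  intro ε hε
  -- choose n
  have h1 : ∀ᶠ n in atTop, ∀ A ∈ R.powerset, u A - ε / 2 < hitN nb lam R T 1 n A := by
    rw [Filter.eventually_all_finset]
    intro A _
    exact (hu1 A).eventually_const_lt (by linarith)
  obtain ⟨n, hn⟩ := h1.exists
  refine ⟨ε * LL nb lam R / (2 * (n + 1)), by positivity, ?_⟩
  intro δ hδ0 hδ
  obtain ⟨w, hw1, hw2, hw3, hw4, hw5, hw6, hw7, hw8⟩ :=
    hit_limit nb lam R hl hR T hT hT0 δ hδ0.le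
  refine ⟨w, fun A _ => ⟨hw3 A, hw4 A⟩, fun A B h _ => hw5 A B h, hw8, ?_⟩
  intro A hA
  set ρ : ℝ := LL nb lam R / (LL nb lam R + δ) with hρ'
  have hρ0 : 0 ≤ ρ := by positivity
  have hρ1 : ρ ≤ 1 := by
    rw [hρ', div_le_one (by linarith)]
    linarith
  have h2 := hitN_cmp nb lam R hl T ρ hρ0 hρ1 n A
  have h3 := hw2 n A
  have h4 := hn A (Finset.mem_powerset.2 hA)
  have h5 := (hitN_props nb lam R hl T hT hT0 1 zero_le_one le_rfl n).2.1 A
  have h5' := (hitN_props nb lam R hl T hT hT0 1 zero_le_one le_rfl n).1 A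
  have h6 : 1 - ε / 2 ≤ ρ ^ n := by
    have h7 : ρ = 1 + -(δ / (LL nb lam R + δ)) := by
      rw [hρ']
      field_simp
      ring
    have h8 : δ / (LL nb lam R + δ) ≤ 1 := by
      rw [div_le_one (by linarith)]
      linarith
    have h9 := one_add_mul_le_pow (a := -(δ / (LL nb lam R + δ))) (by linarith) n
    rw [← h7] at h9
    refine le_trans ?_ h9
    have h10 : (n : ℝ) * (δ / (LL nb lam R + δ)) ≤ ε / 2 := by
      have h11 : δ / (LL nb lam R + δ) ≤ δ / LL nb lam R :=
        div_le_div_of_nonneg_left hδ0.le hL (by linarith)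
      have h12 : δ / LL nb lam R ≤ ε / (2 * (n + 1)) := by
        rw [div_le_iff₀ hL]
        calc δ ≤ ε * LL nb lam R / (2 * (n + 1)) := hδ
          _ = _ := by ring
      calc (n : ℝ) * (δ / (LL nb lam R + δ)) ≤ n * (ε / (2 * (n + 1))) :=
            mul_le_mul_of_nonneg_left (h11.trans h12) (Nat.cast_nonneg _)
        _ ≤ ((n : ℝ) + 1) * (ε / (2 * (n + 1))) := by
            apply mul_le_mul_of_nonneg_right _ (by positivity)
            linarith
        _ = ε / 2 := by
            field_simp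
    linarith
  have h7 : (1 - ε / 2) * hitN nb lam R T 1 n A ≤ ρ ^ n * hitN nb lam R T 1 n A :=
    mul_le_mul_of_nonneg_right h6 h5'
  nlinarith

theorem green : St_GREEN := by
  intro V _ nb lam hl R hR g hg0 hg1 hg2 hg3
  classical
  have hL := LL_pos nb lam R hl
  set g' : Finset V → ℝ := fun A => g (A ∩ R) with hg'
  have hg'0 : g' ∅ = 0 := by
    simp only [hg', Finset.empty_inter, hg0]
  have hg'1 : ∀ A, 0 ≤ g' A := fun A => hg1 _ Finset.inter_subset_right
  have hg'2 : ∀ A B, A ⊆ B → g' A ≤ g' B := fun A B h =>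
    hg2 _ _ (Finset.inter_subset_inter_right h) Finset.inter_subset_right
  have hg'3 : ∀ A B, g' (A ∪ B) ≤ g' A + g' B := by
    intro A B
    simp only [hg']
    rw [Finset.union_inter_distrib_right]
    exact hg3 _ _ Finset.inter_subset_right Finset.inter_subset_right
  have hg'e : ∀ A, A ⊆ R → g' A = g A := fun A hA => by
    simp only [hg']
    rw [Finset.inter_eq_left.2 hA]
  -- iteration
  obtain ⟨G, hG⟩ : ∃ G, G = grN nb lam R (fun A => g' A / LL nb lam R) := ⟨_, rfl⟩
  have hGs : ∀ n A, G (n + 1) A = g' A / LL nb lam R + UU nb lam R (G n) A := fun n A => by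
    rw [hG]
    rfl
  have hG0 : ∀ A, G 0 A = 0 := fun A => by
    rw [hG]
    rfl
  have hp : ∀ n, (∀ A, 0 ≤ G n A) ∧ (∀ A, G n A ≤ G (n + 1) A) ∧ (∀ A B, A ⊆ B → G n A ≤ G n B) ∧
      (∀ A B, G n (A ∪ B) ≤ G n A + G n B) ∧ G n ∅ = 0 := by
    rw [hG]
    refine grN_props nb lam R hl (fun A => g' A / LL nb lam R) ?_ ?_ ?_ ?_
    · simp only [hg'0, zero_div]
    · exact fun A => div_nonneg (hg'1 A) hL.le
    · exact fun A B h => div_le_div_of_nonneg_right (hg'2 A B h) hL.le
    · intro A B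
      rw [← add_div]
      exact div_le_div_of_nonneg_right (hg'3 A B) hL.le
  obtain ⟨B, c, hc0, hB0, hBgen⟩ := lyap nb lam R hl
  have hBU : ∀ A, A ⊆ R → A ≠ ∅ → UU nb lam R B A ≤ B A - c / LL nb lam R := by
    intro A hA hne
    have h1 := hBgen A hA hne
    rw [gen_UU nb lam R hl B A hA] at h1
    have h2 : UU nb lam R B A - B A ≤ -c / LL nb lam R := by
      rw [le_div_iff₀ hL]
      linarith
    rw [neg_div] at h2
    linarith
  set M : ℝ := g R with hM
  have hM0 : 0 ≤ M := hg1 R subset_rfl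
  have hGb : ∀ n, ∀ A, A ⊆ R → G n A ≤ M / c * B A := by
    intro n
    induction n with
    | zero =>
      intro A _
      rw [hG0]
      exact mul_nonneg (div_nonneg hM0 hc0.le) (hB0 A)
    | succ n ih =>
      intro A hA
      by_cases hne : A = ∅
      · rw [hne, (hp (n + 1)).2.2.2.2]
        exact mul_nonneg (div_nonneg hM0 hc0.le) (hB0 _)
      · rw [hGs]
        have h1 := UU_le' nb lam R hl hR _ _ ih A hA
        rw [UU_smul] at h1
        have h2 := mul_le_mul_of_nonneg_left (hBU A hA hne) (div_nonneg hM0 hc0.le)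
        have h3 : g' A / LL nb lam R ≤ M / LL nb lam R := by
          apply div_le_div_of_nonneg_right _ hL.le
          rw [hg'e A hA]
          exact hg2 A R hA subset_rfl
        have h4 : M / c * (B A - c / LL nb lam R) = M / c * B A - M / LL nb lam R := by
          field_simp
        linarith
  have hmono : ∀ A, Monotone fun n => G n A := fun A =>
    monotone_nat_of_le_succ fun n => (hp n).2.1 A
  have hbdd : ∀ A, A ⊆ R → BddAbove (Set.range fun n => G n A) := by
    intro A hA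
    refine ⟨M / c * B A, ?_⟩
    rintro _ ⟨n, rfl⟩
    exact hGb n A hA
  have hlim : ∀ A, A ⊆ R → Tendsto (fun n => G n A) atTop (nhds (⨆ n, G n A)) := fun A hA =>
    tendsto_atTop_ciSup (hmono A) (hbdd A hA)
  refine ⟨fun A => ⨆ n, G n A, ?_, fun A hA => ?_, fun A C h hC => ?_, fun A C hA hC => ?_,
    fun A hA => ?_⟩
  · have h1 : Tendsto (fun n => G n ∅) atTop (nhds 0) :=
      tendsto_const_nhds.congr fun n => ((hp n).2.2.2.2).symm
    exact tendsto_nhds_unique (hlim ∅ (Finset.empty_subset _)) h1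
  · exact ge_of_tendsto' (hlim A hA) fun n => (hp n).1 A
  · exact le_of_tendsto_of_tendsto' (hlim A (h.trans hC)) (hlim C hC) fun n =>
      (hp n).2.2.1 A C h
  · exact le_of_tendsto_of_tendsto' (hlim _ (Finset.union_subset hA hC))
      ((hlim A hA).add (hlim C hC)) fun n => (hp n).2.2.2.1 A C
  · have h1 : Tendsto (fun n => G (n + 1) A) atTop
        (nhds (g' A / LL nb lam R + UU nb lam R (fun A => ⨆ n, G n A) A)) := by
      have h2 := (UU_tendsto nb lam R hR G (fun A => ⨆ n, G n A) (fun C hC => hlim C hC) A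
        hA).const_add (g' A / LL nb lam R)
      exact h2.congr fun n => (hGs n A).symm
    have h2 := tendsto_nhds_unique ((tendsto_add_atTop_iff_nat 1).2 (hlim A hA)) h1
    rw [gen_UU nb lam R hl _ A hA]
    rw [hg'e A hA] at h2
    have h3 : UU nb lam R (fun A => ⨆ n, G n A) A - (⨆ n, G n A) = -(g A / LL nb lam R) := by
      linarith
    rw [h3]
    field_simp

end Pool.Agent.W880.CP
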