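import Pool.Agent.W880.CP.Exp

/-! CP-STEP: path level, almost sure steps and occupation bounds (MP_2b201f_pr). -/

set_option autoImplicit false
set_option linter.unusedSectionVars false

namespace Pool.Agent.W880.CP

open MeasureTheory ProbabilityTheory Pool.Agent.W845.CP Set
open scoped ENNReal

section

variable {X : Type} [MeasurableSpace X] [Countable X] [DiscreteMeasurableSpace X]

theorem law_ae_zero (J : X → Measure X) (hJ : GoodJ J) (x0 : X) :
    ∀ᵐ ω ∂(law J hJ x0), ω 0 = (x0, 0) := by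
  have h := law_zero J hJ x0
  have h1 : ∀ᵐ z ∂((law J hJ x0).map (fun ω => ω 0)), z = (x0, 0) := by
    rw [h]
    exact (ae_dirac_iff (p := fun z : X × ℝ => z = (x0, 0)) (measurableSet_singleton _)).2 rfl
  exact ae_of_ae_map (measurable_pi_apply 0).aemeasurable h1

theorem lint_zero (J : X → Measure X) (hJ : GoodJ J) (x0 : X) (F : X × ℝ → ℝ≥0∞)
    (hF : Measurable F) : ∫⁻ ω, F (ω 0) ∂(law J hJ x0) = F (x0, 0) := by
  have h := law_zero J hJ x0
  have h1 : ∫⁻ z, F z ∂((law J hJ x0).map (fun ω => ω 0)) = F (x0, 0) := by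
    rw [h, lintegral_dirac]
  rw [← h1, lintegral_map hF (by fun_prop)]

theorem step : St_STEP := by
  intro X _ _ _ J hJ x0 R hR
  have h1 : ∀ k, ∀ᵐ ω ∂(law J hJ x0), R (ω k).1 (ω (k + 1)).1 ∧ (ω k).2 < (ω (k + 1)).2 := by
    intro k
    classical
    set S : Set ((X × ℝ) × (X × ℝ)) := {p | R p.1.1 p.2.1 ∧ p.1.2 < p.2.2} with hS
    have hSm : MeasurableSet S := by
      have e1 : MeasurableSet {p : (X × ℝ) × (X × ℝ) | R p.1.1 p.2.1} := by
        have : Measurable fun p : (X × ℝ) × (X × ℝ) => (p.1.1, p.2.1) := by fun_prop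
        exact this (MeasurableSet.of_discrete (s := {q : X × X | R q.1 q.2}))
      have e2 : MeasurableSet {p : (X × ℝ) × (X × ℝ) | p.1.2 < p.2.2} :=
        measurableSet_lt (by fun_prop) (by fun_prop)
      exact e1.inter e2
    have hFm : Measurable (Sᶜ.indicator (fun _ => (1 : ℝ≥0∞))) :=
      measurable_const.indicator hSm.compl
    have h2 := tower1 J hJ x0 k (fun z w => Sᶜ.indicator (fun _ => (1 : ℝ≥0∞)) (z, w)) hFm
    have h3 : ∀ ω : ℕ → X × ℝ, (J (ω k).1 univ)⁻¹ * ∫⁻ y, ∫⁻ s,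
        Sᶜ.indicator (fun _ => (1 : ℝ≥0∞)) (ω k, (y, (ω k).2 + s))
        ∂(expMeasure (J (ω k).1 univ).toReal) ∂(J (ω k).1) = 0 := by
      intro ω
      have h4 : ∫⁻ y, ∫⁻ s, Sᶜ.indicator (fun _ => (1 : ℝ≥0∞)) (ω k, (y, (ω k).2 + s))
        ∂(expMeasure (J (ω k).1 univ).toReal) ∂(J (ω k).1) =
          ∫⁻ _y, 0 ∂(J (ω k).1) := by
        apply lintegral_congr_ae
        filter_upwards [hR (ω k).1] with y hy
        rw [← lintegral_zero (μ := expMeasure (J (ω k).1 univ).toReal)]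
        apply lintegral_congr_ae
        filter_upwards [exp_ae_pos (J (ω k).1 univ).toReal] with s hs
        rw [indicator_of_notMem]
        simp only [hS, mem_compl_iff, mem_ofPred_eq, not_not]
        exact ⟨hy, by linarith⟩
      rw [h4, lintegral_zero, mul_zero]
    simp_rw [h3] at h2
    rw [lintegral_zero] at h2
    have hm : Measurable fun ω : ℕ → X × ℝ => Sᶜ.indicator (fun _ => (1 : ℝ≥0∞)) (ω k, ω (k + 1)) :=
      hFm.comp (by fun_prop)
    rw [lintegral_eq_zero_iff hm] at h2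
    filter_upwards [h2] with ω hω
    by_contra hc
    have : (ω k, ω (k + 1)) ∈ Sᶜ := hc
    rw [indicator_of_mem this] at hω
    simp at hω
  filter_upwards [law_ae_zero J hJ x0, ae_all_iff.2 h1] with ω h0 h1
  exact ⟨h0, h1⟩

theorem occ_f (J : X → Measure X) (hJ : GoodJ J) (x0 : X) (f : X → ℝ≥0∞) (k : ℕ) :
    ∫⁻ ω, f (ω (k + 1)).1 ∂(law J hJ x0) =
      ∫⁻ ω, (J (ω k).1 univ)⁻¹ * ∫⁻ y, f y ∂(J (ω k).1) ∂(law J hJ x0) := by
  have hf : Measurable f := measurable_of_countable f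
  have h := tower1 J hJ x0 k (fun _ w => f w.1) (by
    change Measurable fun p : (X × ℝ) × (X × ℝ) => f p.2.1
    fun_prop)
  rw [h]
  refine lintegral_congr fun ω => ?_
  have := isProb_exp J hJ (ω k).1
  simp

theorem occ_g (J : X → Measure X) (hJ : GoodJ J) (x0 : X) (g : X → ℝ≥0∞) (k : ℕ) :
    ∫⁻ ω, g (ω k).1 * ENNReal.ofReal ((ω (k + 1)).2 - (ω k).2) ∂(law J hJ x0) =
      ∫⁻ ω, (J (ω k).1 univ)⁻¹ * g (ω k).1 ∂(law J hJ x0) := by
  have hg : Measurable g := measurable_of_countable g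
  have h := tower1 J hJ x0 k (fun z w => g z.1 * ENNReal.ofReal (w.2 - z.2)) (by
    change Measurable fun p : (X × ℝ) × (X × ℝ) => g p.1.1 * ENNReal.ofReal (p.2.2 - p.1.2)
    fun_prop)
  rw [h]
  refine lintegral_congr fun ω => ?_
  have hq := hJ (ω k).1
  have hr : 0 < (J (ω k).1 univ).toReal := ENNReal.toReal_pos hq.1 hq.2
  have h2 : ∀ s : ℝ, g (ω k).1 * ENNReal.ofReal ((ω k).2 + s - (ω k).2) =
      g (ω k).1 * ENNReal.ofReal s := by
    intro s
    rw [add_sub_cancel_left]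
  dsimp only
  simp_rw [h2]
  rw [lintegral_const_mul _ (by fun_prop), lint_exp_mean _ hr, lintegral_const, one_div,
    ENNReal.ofReal_inv_of_pos hr, ENNReal.ofReal_toReal hq.2, mul_assoc,
    ENNReal.inv_mul_cancel hq.1 hq.2, mul_one]

theorem occ_sum (J : X → Measure X) (hJ : GoodJ J) (x0 : X) (f g : X → ℝ≥0∞)
    (h : ∀ x, ∫⁻ y, f y ∂(J x) + g x ≤ J x univ * f x) (n : ℕ) :
    ∑ k ∈ Finset.range n, ∫⁻ ω, (J (ω k).1 univ)⁻¹ * g (ω k).1 ∂(law J hJ x0) +
      ∫⁻ ω, f (ω n).1 ∂(law J hJ x0) ≤ f x0 := by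
  have hf : Measurable f := measurable_of_countable f
  have hg : Measurable g := measurable_of_countable g
  have hq : Measurable fun x : X => (J x univ)⁻¹ := measurable_of_countable _
  induction n with
  | zero =>
    rw [Finset.sum_range_zero, zero_add]
    have := lint_zero J hJ x0 (fun z => f z.1) (by fun_prop)
    exact this.le
  | succ n ih =>
    rw [Finset.sum_range_succ, add_assoc]
    refine le_trans (add_le_add le_rfl ?_) ih
    rw [occ_f J hJ x0 f n, ← lintegral_add_left (by fun_prop)]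
    refine lintegral_mono fun ω => ?_
    have hqq := hJ (ω n).1
    have h2 := mul_le_mul_right (h (ω n).1) (J (ω n).1 univ)⁻¹
    rw [← mul_assoc, ENNReal.inv_mul_cancel hqq.1 hqq.2, one_mul, mul_add, add_comm] at h2
    exact h2

theorem occ_tsum (J : X → Measure X) (hJ : GoodJ J) (x0 : X) (f g : X → ℝ≥0∞)
    (h : ∀ x, ∫⁻ y, f y ∂(J x) + g x ≤ J x univ * f x) :
    ∑' k, ∫⁻ ω, (J (ω k).1 univ)⁻¹ * g (ω k).1 ∂(law J hJ x0) ≤ f x0 :=
  ENNReal.tsum_le_of_sum_range_le fun n => le_self_add.trans (occ_sum J hJ x0 f g h n)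

end

theorem occ1 : St_OCC1 := by
  intro X _ _ _ J hJ x0 f g h
  have hg : Measurable g := measurable_of_countable g
  rw [lintegral_tsum fun k => by fun_prop]
  simp_rw [occ_g J hJ x0 g]
  exact occ_tsum J hJ x0 f g h

theorem occ2 : St_OCC2 := by
  intro X _ _ _ J hJ x0 f g O h hfin hO
  classical
  set S : ℕ → Set (ℕ → X × ℝ) := fun k => {ω | (ω k).1 ∉ O ∧ (ω (k + 1)).1 ∈ O} with hS
  have h1 : ∀ k, law J hJ x0 (S k) ≤
      ∫⁻ ω, (J (ω k).1 univ)⁻¹ * g (ω k).1 ∂(law J hJ x0) := by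
    intro k
    set A : Set ((X × ℝ) × (X × ℝ)) := {p | p.1.1 ∉ O ∧ p.2.1 ∈ O} with hA
    have hAm : MeasurableSet A := by
      have : Measurable fun p : (X × ℝ) × (X × ℝ) => (p.1.1, p.2.1) := by fun_prop
      exact this (MeasurableSet.of_discrete (s := {q : X × X | q.1 ∉ O ∧ q.2 ∈ O}))
    have hFm : Measurable (A.indicator (fun _ => (1 : ℝ≥0∞))) :=
      measurable_const.indicator hAm
    have h2 := tower1 J hJ x0 k (fun z w => A.indicator (fun _ => (1 : ℝ≥0∞)) (z, w)) hFm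
    have hSm : MeasurableSet (S k) := by
      have : Measurable fun ω : ℕ → X × ℝ => (ω k, ω (k + 1)) := by fun_prop
      exact this hAm
    have h3 : law J hJ x0 (S k) =
        ∫⁻ ω, A.indicator (fun _ => (1 : ℝ≥0∞)) (ω k, ω (k + 1)) ∂(law J hJ x0) := by
      rw [← lintegral_indicator_one hSm]
      rfl
    rw [h3, h2]
    refine lintegral_mono fun ω => mul_le_mul_right ?_ _
    have := isProb_exp J hJ (ω k).1
    by_cases hx : (ω k).1 ∈ O
    · have e : ∀ y s, A.indicator (fun _ => (1 : ℝ≥0∞)) (ω k, (y, (ω k).2 + s)) = 0 := by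
        intro y s
        rw [indicator_of_notMem]
        simp only [hA, mem_ofPred_eq, not_and]
        intro h
        exact absurd hx h
      simp_rw [e]
      simp
    · have e : ∀ y s, A.indicator (fun _ => (1 : ℝ≥0∞)) (ω k, (y, (ω k).2 + s)) =
          O.indicator (fun _ => (1 : ℝ≥0∞)) y := by
        intro y s
        by_cases hy : y ∈ O
        · rw [indicator_of_mem hy, indicator_of_mem]
          exact ⟨hx, hy⟩
        · rw [indicator_of_notMem hy, indicator_of_notMem]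
          intro h
          exact hy h.2
      simp_rw [e]
      have e2 : ∫⁻ y, ∫⁻ _s : ℝ, O.indicator (fun _ => (1 : ℝ≥0∞)) y
          ∂(expMeasure (J (ω k).1 univ).toReal) ∂(J (ω k).1) = J (ω k).1 O := by
        simp only [lintegral_const, measure_univ, mul_one]
        rw [lintegral_indicator MeasurableSet.of_discrete]
        simp
      rw [e2]
      exact hO _ hx
  have h2 : ∑' k, law J hJ x0 (S k) ≠ ⊤ :=
    ne_top_of_le_ne_top hfin ((ENNReal.tsum_le_tsum h1).trans (occ_tsum J hJ x0 f g h))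
  exact ae_finite_setOfPred_mem h2

end Pool.Agent.W880.CP
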