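import Pool.Agent.W845.CP.Base2

/-! CP-TR: transfer from a region to the whole graph (MP_2b201f_pr). -/

set_option autoImplicit false
set_option linter.unusedSectionVars false

namespace Pool.Agent.W880.CP

open Pool.Agent.W845.CP

theorem hit_unique {V : Type} [DecidableEq V] (nb : V → Finset V) (lam : ℝ) (hl : 0 ≤ lam)
    (R : Finset V) (hR : ∀ x ∈ R, nb x ⊆ R) (T : Finset V → Prop) (u v : Finset V → ℝ)
    (hu : IsHit nb lam R T u) (hv : IsHit nb lam R T v) (A : Finset V) (hA : A ⊆ R) :
    u A ≤ v A := by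
  have h := mp V nb lam hl R hR (fun B => v B - u B) (by
    rw [hu.empty, hv.empty, sub_zero]) (by
    intro B hB _
    by_cases hT : T B
    · left
      rw [hu.one B hB hT, hv.one B hB hT, sub_self]
    · right
      rw [gen_sub, hu.harm B hB hT, hv.harm B hB hT, sub_zero]) A hA
  linarith

theorem tr (hreg : St_REGHIT) : St_TR := by
  intro V _ nb lam hl R T hT hTR hT0 u hu ε hε
  have hcl : ∀ x ∈ R, rest nb R x ⊆ R := fun x _ => Finset.inter_subset_right
  obtain ⟨u0, hu0, h0⟩ := hreg V (rest nb R) lam hl R hcl T hT hT0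
  obtain ⟨δ0, hδ0, h1⟩ := h0 ε hε
  refine ⟨δ0, hδ0, fun δ hδ hδ' => ?_⟩
  obtain ⟨w, hw1, hw2, hw3, hw4⟩ := h1 δ hδ hδ'
  have hsub : ∀ A : Finset V, A ∩ R ⊆ R := fun A => Finset.inter_subset_right
  refine ⟨fun A => w (A ∩ R), fun A => hw1 _ (hsub A), fun A hA => ?_, fun A => ?_⟩
  · have hAT : ¬ T (A ∩ R) := fun h => hA (hT _ _ Finset.inter_subset_left h)
    dsimp only
    rw [← hw3 (A ∩ R) (hsub A) hAT]
    unfold gen
    refine add_le_add ?_ (mul_le_mul_of_nonneg_left ?_ hl)
    · have e1 : ∀ x ∈ A ∩ R, (A.erase x) ∩ R = (A ∩ R).erase x := by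
        intro x _
        ext z
        simp only [Finset.mem_inter, Finset.mem_erase]
        tauto
      rw [← Finset.sum_subset (Finset.inter_subset_left (s₁ := A) (s₂ := R))
        (f := fun x => w ((A.erase x) ∩ R) - w (A ∩ R))]
      · refine le_of_eq (Finset.sum_congr rfl fun x hx => ?_)
        rw [e1 x hx]
      · intro x hxA hx
        have hxR : x ∉ R := fun h => hx (Finset.mem_inter.2 ⟨hxA, h⟩)
        have e2 : (A.erase x) ∩ R = A ∩ R := by
          ext z
          simp only [Finset.mem_inter, Finset.mem_erase]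
          constructor
          · rintro ⟨⟨_, h⟩, h'⟩
            exact ⟨h, h'⟩
          · rintro ⟨h, h'⟩
            exact ⟨⟨fun h'' => hxR (h'' ▸ h'), h⟩, h'⟩
        rw [e2, sub_self]
    · have hpos : ∀ y, 0 ≤ w ((insert y A) ∩ R) - w (A ∩ R) := by
        intro y
        have := hw2 (A ∩ R) ((insert y A) ∩ R)
          (Finset.inter_subset_inter_right (Finset.subset_insert _ _)) (hsub _)
        linarith
      have h2 : ∑ x ∈ A ∩ R, ∑ y ∈ rest nb R x, (w (insert y (A ∩ R)) - w (A ∩ R)) ≤
          ∑ x ∈ A ∩ R, ∑ y ∈ nb x, (w ((insert y A) ∩ R) - w (A ∩ R)) := by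
        refine Finset.sum_le_sum fun x _ => ?_
        have h3 : ∑ y ∈ rest nb R x, (w (insert y (A ∩ R)) - w (A ∩ R)) =
            ∑ y ∈ rest nb R x, (w ((insert y A) ∩ R) - w (A ∩ R)) := by
          refine Finset.sum_congr rfl fun y hy => ?_
          have hyR : y ∈ R := (Finset.mem_inter.1 hy).2
          have e3 : insert y (A ∩ R) = (insert y A) ∩ R := by
            rw [Finset.insert_inter_of_mem hyR]
          rw [e3]
        rw [h3]
        exact Finset.sum_le_sum_of_subset_of_nonneg Finset.inter_subset_left fun y _ _ => hpos y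
      refine h2.trans ?_
      exact Finset.sum_le_sum_of_subset_of_nonneg Finset.inter_subset_left
        fun x _ _ => Finset.sum_nonneg fun y _ => hpos y
  · have h2 := hit_unique (rest nb R) lam hl R hcl T u u0 hu hu0 (A ∩ R) (hsub A)
    have h3 := hw4 (A ∩ R) (hsub A)
    dsimp only
    linarith

end Pool.Agent.W880.CP
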