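import Pool.Agent.W845.CP.Base2

/-! Project CP: the exponential law and one step of the chain. -/

set_option autoImplicit false
set_option linter.unusedSectionVars false

namespace Pool.Agent.W880.CP

open MeasureTheory ProbabilityTheory Pool.Agent.W845.CP Set
open scoped ENNReal

theorem lint_exp (r : ℝ) (F : ℝ → ℝ≥0∞) (hF : Measurable F) :
    ∫⁻ s, F s ∂(expMeasure r) =
      ∫⁻ s in Ioi (0 : ℝ), F s * ENNReal.ofReal (r * Real.exp (-(r * s))) := by
  have h1 : expMeasure r = volume.withDensity (exponentialPDF r) := rfl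
  have hm : Measurable (exponentialPDF r) :=
    (measurable_exponentialPDFReal r).ennreal_ofReal
  rw [h1, lintegral_withDensity_eq_lintegral_mul _ hm hF]
  have h2 : ∀ s : ℝ, (exponentialPDF r * F) s =
      (Ici (0 : ℝ)).indicator (fun s => F s * ENNReal.ofReal (r * Real.exp (-(r * s)))) s := by
    intro s
    rw [Pi.mul_apply]
    by_cases hs : 0 ≤ s
    · rw [indicator_of_mem (by exact hs), exponentialPDF_of_nonneg hs, mul_comm]
    · rw [indicator_of_notMem (by exact hs), exponentialPDF_of_neg (not_le.1 hs), zero_mul]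
  simp_rw [h2]
  rw [lintegral_indicator measurableSet_Ici]
  exact setLIntegral_congr Ioi_ae_eq_Ici.symm

theorem exp_ae_pos (r : ℝ) : ∀ᵐ s ∂(expMeasure r), 0 < s := by
  rw [ae_iff]
  have h1 : {s : ℝ | ¬ 0 < s} = Iic 0 := by
    ext s
    simp
  rw [h1, ← lintegral_indicator_one measurableSet_Iic, lint_exp]
  · rw [setLIntegral_congr_fun measurableSet_Ioi (g := fun _ => 0)]
    · simp
    · intro s hs
      have hs0 : (0 : ℝ) < s := hs
      dsimp only
      rw [indicator_of_notMem, zero_mul]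
      exact not_le.2 hs0
  · exact measurable_one.indicator measurableSet_Iic

theorem lint_gamma (c a b : ℝ) (hc : 0 ≤ c) (ha : 0 < a) (hb : 0 < b) :
    ∫⁻ s in Ioi (0 : ℝ), ENNReal.ofReal (c * (s ^ (a - 1) * Real.exp (-(b * s)))) =
      ENNReal.ofReal (c * ((1 / b) ^ a * Real.Gamma a)) := by
  have h1 := Real.integral_rpow_mul_exp_neg_mul_Ioi ha hb
  have h2 : ∫ t in Ioi (0 : ℝ), t ^ (a - 1) * Real.exp (-(b * t)) ≠ 0 := by
    rw [h1]
    have := Real.Gamma_pos_of_pos ha
    positivity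
  have h3 : IntegrableOn (fun t : ℝ => t ^ (a - 1) * Real.exp (-(b * t))) (Ioi 0) := by
    by_contra h
    exact h2 (integral_undef h)
  have h4 : IntegrableOn (fun t : ℝ => c * (t ^ (a - 1) * Real.exp (-(b * t)))) (Ioi 0) :=
    h3.const_mul c
  rw [← ofReal_integral_eq_lintegral_ofReal h4, integral_const_mul, h1]
  rw [Filter.EventuallyLE, ae_restrict_iff' measurableSet_Ioi]
  refine Filter.Eventually.of_forall fun s hs => ?_
  have hs0 : (0 : ℝ) < s := hs
  dsimp only [Pi.zero_apply]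
  positivity

/-- the mean of the exponential law -/
theorem lint_exp_mean (r : ℝ) (hr : 0 < r) :
    ∫⁻ s, ENNReal.ofReal s ∂(expMeasure r) = ENNReal.ofReal (1 / r) := by
  rw [lint_exp r _ (by fun_prop)]
  have h1 := lint_gamma r 2 r hr.le (by norm_num) hr
  have h2 : r * ((1 / r) ^ (2 : ℝ) * Real.Gamma 2) = 1 / r := by
    rw [Real.Gamma_two, Real.rpow_two]
    field_simp
  rw [h2] at h1
  rw [← h1]
  refine setLIntegral_congr_fun measurableSet_Ioi fun s hs => ?_
  have hs0 : (0 : ℝ) < s := hs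
  rw [← ENNReal.ofReal_mul hs0.le]
  congr 1
  have h3 : (2 : ℝ) - 1 = 1 := by norm_num
  rw [h3, Real.rpow_one]
  ring

/-- the Laplace transform of the exponential law -/
theorem lint_exp_laplace (r D : ℝ) (hr : 0 < r) (hD : 0 ≤ D) :
    ∫⁻ s, ENNReal.ofReal (Real.exp (-(D * s))) ∂(expMeasure r) =
      ENNReal.ofReal (r / (r + D)) := by
  rw [lint_exp r _ (by fun_prop)]
  have h1 := lint_gamma r 1 (r + D) hr.le (by norm_num) (by linarith)
  have h2 : r * ((1 / (r + D)) ^ (1 : ℝ) * Real.Gamma 1) = r / (r + D) := by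
    rw [Real.Gamma_one, Real.rpow_one]
    ring
  rw [h2] at h1
  rw [← h1]
  refine setLIntegral_congr_fun measurableSet_Ioi fun s hs => ?_
  have hs0 : (0 : ℝ) < s := hs
  rw [← ENNReal.ofReal_mul (Real.exp_nonneg _)]
  congr 1
  rw [sub_self, Real.rpow_zero, one_mul]
  have h3 : Real.exp (-((r + D) * s)) = Real.exp (-(D * s)) * Real.exp (-(r * s)) := by
    rw [← Real.exp_add]
    congr 1
    ring
  rw [h3]
  ring

section step

variable {X : Type} [MeasurableSpace X] [Countable X] [DiscreteMeasurableSpace X]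

/-- one step, only the present matters -/
theorem tower1 (J : X → Measure X) (hJ : GoodJ J) (x0 : X) (n : ℕ)
    (F : X × ℝ → X × ℝ → ℝ≥0∞) (hF : Measurable (Function.uncurry F)) :
    ∫⁻ ω, F (ω n) (ω (n + 1)) ∂(law J hJ x0) =
      ∫⁻ ω, (J (ω n).1 univ)⁻¹ * ∫⁻ y, ∫⁻ s, F (ω n) (y, (ω n).2 + s)
        ∂(expMeasure (J (ω n).1 univ).toReal) ∂(J (ω n).1) ∂(law J hJ x0) := by
  have h := tower J hJ x0 n (fun h z => F (h ⟨n, by simp⟩) z) (by
    have : (Function.uncurry fun (h : Π _ : Finset.Iic n, X × ℝ) z => F (h ⟨n, by simp⟩) z) =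
      (Function.uncurry F) ∘ (fun p : (Π _ : Finset.Iic n, X × ℝ) × (X × ℝ) =>
        (p.1 ⟨n, by simp⟩, p.2)) := rfl
    rw [this]
    exact hF.comp (by fun_prop))
  refine h.trans ?_
  refine lintegral_congr fun ω => ?_
  have h2 : Measurable (F (ω n)) := by
    have : F (ω n) = (Function.uncurry F) ∘ (fun z => (ω n, z)) := rfl
    rw [this]
    exact hF.comp (by fun_prop)
  exact lintegral_stepM J hJ (ω n) (F (ω n)) h2

end step

end Pool.Agent.W880.CP
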